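import Pool.Agent.W469.FS.Core

open scoped Manifold ContDiff Topology
open MeasureTheory Set

noncomputable section

namespace Pool.Agent.W469.FS.G3

open Pool.Agent.W491.FS Pool.Agent.W469.FS.Core Pool.Agent.W469.FS.Core.PE

def P : Fin 3 → Fin 3 → PE 3 := ![
  ![c 1, c 0, c 0],
  ![mul (c (-1)) (w 0), c 1, c 0],
  ![mul (c (1 / 2)) (mul (w 0) (w 0)), mul (c (-1)) (w 0), c 1]]

def Q (a : Fin 3 → ℂ) : Fin 3 → PE 3 := ![
  c 0,
  mul (c (starRingEnd ℂ (a 0))) (v 0),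
  add (mul (c (starRingEnd ℂ (a 0))) (v 1))
    (mul (c ((1 / 2) * (starRingEnd ℂ (a 0)) ^ 2)) (v 0))]

theorem half_conj : (starRingEnd ℂ) (1 / 2 : ℂ) = 1 / 2 := by
  rw [map_div₀, map_one, map_ofNat]

def F : Fam (Fin 3) s3 := mk s3 P Q ![0, 1, 2] ![2, 1, 1]
  (fun i => by fin_cases i <;> simp)
  (fun i a a' z z' ha hz => by
    fin_cases i
    · rfl
    · have h1 := ha 0 (by decide)
      have h2 := hz 0 (by decide)
      simp [Q, ev, h1, h2]
    · have h1 := ha 0 (by decide)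
      have h2 := hz 0 (by decide)
      have h3 := hz 1 (by decide)
      simp [Q, ev, h1, h2, h3])
  (fun z i => by fin_cases i <;> simp [Q, ev])
  (fun a b z i => by
    fin_cases i <;> simp [Q, ev, ph] <;> ring)
  (fun a b ha hb i => by
    obtain ⟨g, hg, h1⟩ := (isLat_iff _ _).1 ha 0
    obtain ⟨g', hg', h2⟩ := (isLat_iff _ _).1 hb 0
    obtain ⟨g'', hg'', h3⟩ := (isLat_iff _ _).1 hb 1
    simp at h1 h2 h3
    have c2 : (starRingEnd ℂ) 2 = 2 := map_ofNat _ 2
    fin_cases i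
    · exact ⟨0, IsG.zero, by simp [Q, ev]⟩
    · refine ⟨4 * (starRingEnd ℂ g * g'), (IsG.ofNat 4).mul (hg.conj.mul hg'), ?_⟩
      simp [Q, ev, h1, h2, c2]
      ring
    · refine ⟨2 * (starRingEnd ℂ g * g'') + 4 * (starRingEnd ℂ g ^ 2 * g'),
        ((IsG.ofNat 2).mul (hg.conj.mul hg'')).add ((IsG.ofNat 4).mul ((hg.conj.pow 2).mul hg')), ?_⟩
      simp [Q, ev, h1, h2, h3, c2]
      ring)
  (fun i => by fin_cases i <;> simp [Q, ev] <;> fun_prop)
  (fun a i => by fin_cases i <;> rfl)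
  (fun y v h => by
    have h0 := h 0
    have h1 := h 1
    have h2 := h 2
    simp [P, ev, Fin.sum_univ_succ] at h0
    simp [P, ev, Fin.sum_univ_succ, h0] at h1
    simp [P, ev, Fin.sum_univ_succ, h0, h1] at h2
    funext i
    fin_cases i <;> simp [h0, h1, h2])
  (fun i a y u => by
    fin_cases i <;> simp [P, Q, ev, dv, ph, Fin.sum_univ_succ] <;> ring)
  (fun i y u v => by
    fin_cases i <;> simp [P, ev, dv, Fin.sum_univ_succ, s3, cof', pcof_apply] <;> ring)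

theorem main : S_G3 := by
  refine ⟨F, rfl, fun a z => ?_, fun y v => ?_⟩
  · simp [F, mk, ph, Q, ev]
  · show pcof P 0 y v = _
    simp [pcof_apply, P, ev, Fin.sum_univ_succ]

end Pool.Agent.W469.FS.G3
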