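import Pool.Agent.W469.FS.Core

open scoped Manifold ContDiff Topology
open MeasureTheory Set

noncomputable section

namespace Pool.Agent.W469.FS.G4

open Pool.Agent.W491.FS Pool.Agent.W469.FS.Core Pool.Agent.W469.FS.Core.PE

def P : Fin 4 → Fin 4 → PE 4 := ![
  ![c 1, c 0, c 0, c 0],
  ![mul (c (-1)) (w 0), c 1, c 0, c 0],
  ![add (w 1) (add (mul (c (-1)) (v 1)) (mul (c (-1)) (mul (v 0) (w 0)))), c 0, c 1, c 0],
  ![add (mul (c (-1)) (v 2)) (add (mul (c (-1)) (w 2)) (mul (v 0) (mul (w 0) (w 0)))), c 0,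
    mul (c (-1)) (w 0), c 1]]

def Q (a : Fin 4 → ℂ) : Fin 4 → PE 4 := ![
  c 0,
  mul (c (starRingEnd ℂ (a 0))) (v 0),
  add (mul (c (starRingEnd ℂ (a 0))) (mul (v 0) (v 0)))
    (mul (c (a 0 * starRingEnd ℂ (a 0) + a 1 - starRingEnd ℂ (a 1))) (v 0)),
  add (mul (c (starRingEnd ℂ (a 0))) (v 2))
    (add (mul (c ((1 / 3) * starRingEnd ℂ (a 0))) (mul (v 0) (mul (v 0) (v 0))))
    (add (mul (c ((1 / 2) * ((starRingEnd ℂ (a 0)) ^ 2 + a 0 * starRingEnd ℂ (a 0) + a 1 -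
      starRingEnd ℂ (a 1)))) (mul (v 0) (v 0)))
    (mul (c (starRingEnd ℂ (a 0) * (a 1 - starRingEnd ℂ (a 1)) + a 2 + starRingEnd ℂ (a 2)))
      (v 0))))]

def F : Fam (Fin 4) s4 := mk s4 P Q ![0, 1, 2, 3] ![6, 1, 1, 1]
  (fun i => by fin_cases i <;> simp)
  (fun i a a' z z' ha hz => by
    fin_cases i
    · rfl
    · have h1 := ha 0 (by decide)
      have h2 := hz 0 (by decide)
      simp [Q, ev, h1, h2]
    · have h1 := ha 0 (by decide)
      have h1' := ha 1 (by decide)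
      have h2 := hz 0 (by decide)
      simp [Q, ev, h1, h1', h2]
    · have h1 := ha 0 (by decide)
      have h1' := ha 1 (by decide)
      have h1'' := ha 2 (by decide)
      have h2 := hz 0 (by decide)
      have h2' := hz 2 (by decide)
      simp [Q, ev, h1, h1', h1'', h2, h2'])
  (fun z i => by fin_cases i <;> simp [Q, ev])
  (fun a b z i => by
    fin_cases i <;> simp [Q, ev, ph] <;> ring)
  (fun a b ha hb i => by
    obtain ⟨g, hg, h1⟩ := (isLat_iff _ _).1 ha 0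
    obtain ⟨g1, hg1, h11⟩ := (isLat_iff _ _).1 ha 1
    obtain ⟨g2, hg2, h12⟩ := (isLat_iff _ _).1 ha 2
    obtain ⟨k, hk, h2⟩ := (isLat_iff _ _).1 hb 0
    obtain ⟨k2, hk2, h3⟩ := (isLat_iff _ _).1 hb 2
    simp at h1 h2 h3 h11 h12
    have c6 : (starRingEnd ℂ) 6 = 6 := map_ofNat _ 6
    fin_cases i
    · exact ⟨0, IsG.zero, by simp [Q, ev]⟩
    · refine ⟨36 * (starRingEnd ℂ g * k), (IsG.ofNat 36).mul (hg.conj.mul hk), ?_⟩
      simp [Q, ev, h1, h2, c6]
      ring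
    · refine ⟨216 * (starRingEnd ℂ g * k ^ 2) + 6 * ((36 * (g * starRingEnd ℂ g) + g1 -
        starRingEnd ℂ g1) * k), ?_, ?_⟩
      · exact ((IsG.ofNat 216).mul (hg.conj.mul (hk.pow 2))).add
          ((IsG.ofNat 6).mul (((((IsG.ofNat 36).mul (hg.mul hg.conj)).add hg1).sub hg1.conj).mul hk))
      · simp [Q, ev, h1, h2, h11, c6]
        ring
    · refine ⟨6 * (starRingEnd ℂ g * k2) + 432 * (starRingEnd ℂ g * k ^ 3) +
        18 * ((36 * (starRingEnd ℂ g ^ 2) + 36 * (g * starRingEnd ℂ g) + g1 -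
          starRingEnd ℂ g1) * k ^ 2) +
        6 * ((6 * (starRingEnd ℂ g * (g1 - starRingEnd ℂ g1)) + g2 + starRingEnd ℂ g2) * k), ?_, ?_⟩
      · refine IsG.add (IsG.add (IsG.add ?_ ?_) ?_) ?_
        · exact (IsG.ofNat 6).mul (hg.conj.mul hk2)
        · exact (IsG.ofNat 432).mul (hg.conj.mul (hk.pow 3))
        · exact (IsG.ofNat 18).mul ((((((IsG.ofNat 36).mul (hg.conj.pow 2)).add
            ((IsG.ofNat 36).mul (hg.mul hg.conj))).add hg1).sub hg1.conj).mul (hk.pow 2))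
        · exact (IsG.ofNat 6).mul (((((IsG.ofNat 6).mul (hg.conj.mul (hg1.sub hg1.conj))).add
            hg2).add hg2.conj).mul hk)
      · simp [Q, ev, h1, h2, h3, h11, h12, c6]
        ring)
  (fun i => by fin_cases i <;> simp [Q, ev] <;> fun_prop)
  (fun a i => by fin_cases i <;> rfl)
  (fun y v h => by
    have h0 := h 0
    have h1 := h 1
    have h2 := h 2
    have h3 := h 3
    simp [P, ev, Fin.sum_univ_succ] at h0
    simp [P, ev, Fin.sum_univ_succ, h0] at h1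
    simp [P, ev, Fin.sum_univ_succ, h0, h1] at h2
    simp [P, ev, Fin.sum_univ_succ, h0, h1, h2] at h3
    funext i
    fin_cases i <;> simp [h0, h1, h2, h3])
  (fun i a y u => by
    fin_cases i <;> simp [P, Q, ev, dv, ph, Fin.sum_univ_succ] <;> ring)
  (fun i y u v => by
    fin_cases i <;> simp [P, ev, dv, Fin.sum_univ_succ, s4, cof', pcof_apply] <;> ring)

theorem main : S_G4 := by
  refine ⟨F, rfl, fun a z => ?_, fun y v => ?_⟩
  · simp [F, mk, ph, Q, ev]
  · show pcof P 0 y v = _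
    simp [pcof_apply, P, ev, Fin.sum_univ_succ]

end Pool.Agent.W469.FS.G4
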