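import Pool.Agent.W469.FS.Core

open scoped Manifold ContDiff Topology
open MeasureTheory Set

noncomputable section

namespace Pool.Agent.W469.FS.GQ

open Pool.Agent.W491.FS Pool.Agent.W469.FS.Core Pool.Agent.W469.FS.Core.PE

def P : Fin 6 → Fin 6 → PE 6 := ![
  ![c 1, c 0, c 0, c 0, c 0, c 0],
  ![c 0, c 1, c 0, c 0, c 0, c 0],
  ![add (mul (c (-1)) (w 1)) (mul (c (-1)) (w 0)), v 0, c 1, c 0, c 0, c 0],
  ![c 0, w 1, c 0, c 1, c 0, c 0],
  ![v 2, add (mul (c (1 / 2)) (mul (w 1) (w 1))) (mul (c (-(1 / 2))) (mul (v 0) (v 0))), c 0,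
    w 1, c 1, c 0],
  ![c 0, mul (c (-1)) (w 0), c 0, c 0, c 0, c 1]]

def Q (a : Fin 6 → ℂ) : Fin 6 → PE 6 := ![
  c 0, c 0,
  add (mul (c (-a 0)) (v 1)) (mul (c (starRingEnd ℂ (a 1) + starRingEnd ℂ (a 0))) (v 0)),
  mul (c (-starRingEnd ℂ (a 1))) (v 1),
  add (mul (c (-starRingEnd ℂ (a 1))) (v 3))
    (add (mul (c ((1 / 2) * (starRingEnd ℂ (a 1)) ^ 2)) (v 1))
    (add (mul (c (-a 2)) (v 0))
    (add (mul (c (a 0)) (mul (v 0) (v 1)))
    (add (mul (c (-(1 / 2) * (starRingEnd ℂ (a 1) + starRingEnd ℂ (a 0)))) (mul (v 0) (v 0)))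
    (mul (c ((1 / 2) * (a 0) ^ 2)) (v 1)))))),
  mul (c (starRingEnd ℂ (a 0))) (v 1)]

def F : Fam (Fin 6) sQ := mk sQ P Q ![0, 0, 1, 1, 2, 1] ![2, 2, 1, 1, 1, 1]
  (fun i => by fin_cases i <;> simp)
  (fun i a a' z z' ha hz => by
    fin_cases i
    · rfl
    · rfl
    · have h1 := ha 0 (by decide)
      have h1' := ha 1 (by decide)
      have h2 := hz 0 (by decide)
      have h2' := hz 1 (by decide)
      simp [Q, ev, h1, h1', h2, h2']
    · have h1' := ha 1 (by decide)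
      have h2' := hz 1 (by decide)
      simp [Q, ev, h1', h2']
    · have h1 := ha 0 (by decide)
      have h1' := ha 1 (by decide)
      have h1'' := ha 2 (by decide)
      have h2 := hz 0 (by decide)
      have h2' := hz 1 (by decide)
      have h2'' := hz 3 (by decide)
      simp [Q, ev, h1, h1', h1'', h2, h2', h2'']
    · have h1 := ha 0 (by decide)
      have h2' := hz 1 (by decide)
      simp [Q, ev, h1, h2'])
  (fun z i => by fin_cases i <;> simp [Q, ev])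
  (fun a b z i => by
    fin_cases i <;> simp [Q, ev, ph] <;> ring)
  (fun a b ha hb i => by
    obtain ⟨g, hg, h1⟩ := (isLat_iff _ _).1 ha 0
    obtain ⟨g1, hg1, h11⟩ := (isLat_iff _ _).1 ha 1
    obtain ⟨g2, hg2, h12⟩ := (isLat_iff _ _).1 ha 2
    obtain ⟨k, hk, h2⟩ := (isLat_iff _ _).1 hb 0
    obtain ⟨k1, hk1, h21⟩ := (isLat_iff _ _).1 hb 1
    obtain ⟨k3, hk3, h23⟩ := (isLat_iff _ _).1 hb 3
    simp at h1 h2 h11 h12 h21 h23
    have c2 : (starRingEnd ℂ) 2 = 2 := map_ofNat _ 2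
    fin_cases i
    · exact ⟨0, IsG.zero, by simp [Q, ev]⟩
    · exact ⟨0, IsG.zero, by simp [Q, ev]⟩
    · refine ⟨4 * ((starRingEnd ℂ g1 + starRingEnd ℂ g) * k - g * k1),
        (IsG.ofNat 4).mul (((hg1.conj.add hg.conj).mul hk).sub (hg.mul hk1)), ?_⟩
      simp [Q, ev, h1, h2, h11, h21, c2]
      ring
    · refine ⟨-(4 * (starRingEnd ℂ g1 * k1)), ((IsG.ofNat 4).mul (hg1.conj.mul hk1)).neg, ?_⟩
      simp [Q, ev, h11, h21, c2]
      ring
    · refine ⟨-(2 * (starRingEnd ℂ g1 * k3)) + 4 * (starRingEnd ℂ g1 ^ 2 * k1) -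
        2 * (g2 * k) + 8 * (g * (k * k1)) - 4 * ((starRingEnd ℂ g1 + starRingEnd ℂ g) * k ^ 2) +
        4 * (g ^ 2 * k1), ?_, ?_⟩
      · refine IsG.add (IsG.sub (IsG.add (IsG.sub (IsG.add ?_ ?_) ?_) ?_) ?_) ?_
        · exact ((IsG.ofNat 2).mul (hg1.conj.mul hk3)).neg
        · exact (IsG.ofNat 4).mul ((hg1.conj.pow 2).mul hk1)
        · exact (IsG.ofNat 2).mul (hg2.mul hk)
        · exact (IsG.ofNat 8).mul (hg.mul (hk.mul hk1))
        · exact (IsG.ofNat 4).mul ((hg1.conj.add hg.conj).mul (hk.pow 2))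
        · exact (IsG.ofNat 4).mul ((hg.pow 2).mul hk1)
      · simp [Q, ev, h1, h2, h11, h12, h21, h23, c2]
        ring
    · refine ⟨4 * (starRingEnd ℂ g * k1), (IsG.ofNat 4).mul (hg.conj.mul hk1), ?_⟩
      simp [Q, ev, h1, h21, c2]
      ring)
  (fun i => by fin_cases i <;> simp [Q, ev] <;> fun_prop)
  (fun a i => by fin_cases i <;> rfl)
  (fun y v h => by
    have h0 := h 0
    have h1 := h 1
    have h2 := h 2
    have h3 := h 3
    have h4 := h 4
    have h5 := h 5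
    simp [P, ev, Fin.sum_univ_succ] at h0
    simp [P, ev, Fin.sum_univ_succ, h0] at h1
    simp [P, ev, Fin.sum_univ_succ, h0, h1] at h2
    simp [P, ev, Fin.sum_univ_succ, h0, h1, h2] at h3
    simp [P, ev, Fin.sum_univ_succ, h0, h1, h2, h3] at h4
    simp [P, ev, Fin.sum_univ_succ, h0, h1, h2, h3, h4] at h5
    funext i
    fin_cases i <;> simp [h0, h1, h2, h3, h4, h5])
  (fun i a y u => by
    fin_cases i <;> simp [P, Q, ev, dv, ph, Fin.sum_univ_succ] <;> ring)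
  (fun i y u v => by
    fin_cases i <;> simp [P, ev, dv, Fin.sum_univ_succ, sQ, cof', pcof_apply] <;> ring)

theorem main : S_GQ := by
  refine ⟨F, rfl, fun a z => ?_, fun y v => ?_⟩
  · simp [F, mk, ph, Q, ev]
  · show pcof P 0 y v = _
    simp [pcof_apply, P, ev, Fin.sum_univ_succ]

end Pool.Agent.W469.FS.GQ
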