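import Pool.Agent.W491.FS.Stm

open scoped Manifold ContDiff Topology
open MeasureTheory Set

noncomputable section

namespace Pool.Agent.W469.FS.Cv

open Pool.Agent.W491.FS

universe u

theorem main : S_CV.{u} := by
  intro n X _ _ _ c c' m hm h1 h2
  let τ := c.1.symm.trans c'.1
  have hsrc : ∀ y, y ∈ τ.source ↔ y ∈ c.1.target ∧ c.1.symm y ∈ c'.1.source := fun y =>
    trans_source_iff c c' y
  have htgt : ∀ y, y ∈ τ.target ↔ y ∈ c'.1.target ∧ c'.1.symm y ∈ c.1.source := by
    intro y
    simp [τ, OpenPartialHomeomorph.trans_target]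
  have e1 : ∫ y in c.1.target, m c y = ∫ y in τ.source, m c y := by
    refine setIntegral_eq_of_subset_of_forall_diff_eq_zero c.1.open_target.measurableSet
      (fun y hy => ((hsrc y).1 hy).1) fun y hy => ?_
    exact h1 y hy.1 fun h => hy.2 ((hsrc y).2 ⟨hy.1, h⟩)
  have e2 : ∫ y in c'.1.target, m c' y = ∫ y in τ.target, m c' y := by
    refine setIntegral_eq_of_subset_of_forall_diff_eq_zero c'.1.open_target.measurableSet
      (fun y hy => ((htgt y).1 hy).1) fun y hy => ?_
    exact h2 y hy.1 fun h => hy.2 ((htgt y).2 ⟨hy.1, h⟩)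
  have e3 := integral_target_eq_integral_abs_det_fderiv_smul (μ := volume) (f := τ)
    (f' := fun y => fderiv ℝ τ y) (fun y hy =>
      (((trans_contDiffOn c c').contDiffAt (τ.open_source.mem_nhds hy)).differentiableAt
        (by simp)).hasFDerivAt) (m c')
  rw [e1, e2, e3]
  refine setIntegral_congr_fun τ.open_source.measurableSet fun y hy => ?_
  rw [hm.compat c c' y hy, mul_comm]
  rfl

end Pool.Agent.W469.FS.Cv
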