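import Pool.Agent.W491.FS.Stm

open scoped Manifold ContDiff Topology
open MeasureTheory Set

noncomputable section

namespace Pool.Agent.W469.FS.Ext

open Pool.Agent.W491.FS

universe u

theorem euler {n k : ℕ} (a : Alt n (k + 1)) :
    a = ((k : ℂ) + 1)⁻¹ • ∑ j, (wl (dz j) (cl a j) + wl (dzb j) (clb a j)) := by
  have h1 := alternatize_decomp a.curryLeft
  rw [ContinuousAlternatingMap.alternatizeUncurryFin_curryLeft] at h1
  have h2 : ∑ j, (wl (dz j) (cl a j) + wl (dzb j) (clb a j)) = (k + 1) • a := h1.symm
  rw [h2]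
  ext v
  have h3 : (k : ℂ) + 1 ≠ 0 := by exact_mod_cast Nat.succ_ne_zero k
  simp only [ContinuousAlternatingMap.smul_apply, smul_eq_mul, nsmul_eq_mul]
  push_cast
  rw [← mul_assoc, inv_mul_cancel₀ h3, one_mul]

theorem pb_sum {ι : Type*} (s : Finset ι) {m n k : ℕ} (a : ι → Alt n k) (L : CN m →L[ℝ] CN n) :
    pb (∑ i ∈ s, a i) L = ∑ i ∈ s, pb (a i) L := by
  ext v
  simp [ContinuousAlternatingMap.sum_apply]

theorem pb_euler {m n k : ℕ} (a : Alt n (k + 1)) (L : CN m →L[ℝ] CN n) :
    pb a L = ((k : ℂ) + 1)⁻¹ • ∑ j, (wl ((dz j).comp L) (pb (cl a j) L) +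
      wl ((dzb j).comp L) (pb (clb a j) L)) := by
  conv_lhs => rw [euler a]
  have h1 : pb (((k : ℂ) + 1)⁻¹ • ∑ j, (wl (dz j) (cl a j) + wl (dzb j) (clb a j))) L =
      ((k : ℂ) + 1)⁻¹ • pb (∑ j, (wl (dz j) (cl a j) + wl (dzb j) (clb a j))) L := by
    ext v
    simp
  rw [h1, pb_sum]
  congr 1
  refine Finset.sum_congr rfl fun j _ => ?_
  rw [← wl_comp, ← wl_comp]
  ext v
  simp

/-- contraction with a vector as a continuous linear map -/
def curryAt {n k : ℕ} (v : CN n) : Alt n (k + 1) →L[ℝ] Alt n k where
  toFun a := a.curryLeft v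
  map_add' a b := by ext; simp
  map_smul' r a := by ext; simp
  cont := by
    have h1 : Continuous (fun a : Alt n (k + 1) => a.curryLeft) :=
      (ContinuousAlternatingMap.curryLeftLI (𝕜 := ℝ) (E := CN n) (F := ℂ) (n := k)).continuous
    exact h1.clm_apply continuous_const

theorem contDiffOn_pb {m n : ℕ} {U : Set (CN m)} (k : ℕ) :
    ∀ {a : CN m → Alt n k} {L : CN m → (CN m →L[ℝ] CN n)},
    ContDiffOn ℝ ∞ a U → ContDiffOn ℝ ∞ L U → ContDiffOn ℝ ∞ (fun y => pb (a y) (L y)) U := by
  induction k with
  | zero =>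
    intro a L ha _
    have h1 : (fun y => pb (a y) (L y)) = fun y =>
        ContinuousAlternatingMap.compContinuousLinearMapCLM (0 : CN m →L[ℝ] CN n) (a y) := by
      funext y
      ext v
      simp only [ContinuousAlternatingMap.compContinuousLinearMap_apply,
        ContinuousAlternatingMap.compContinuousLinearMapCLM_apply]
      congr 1
      exact Subsingleton.elim _ _
    rw [h1]
    exact (ContinuousLinearMap.contDiff _).comp_contDiffOn ha
  | succ k ih =>
    intro a L ha hL
    have h1 : (fun y => pb (a y) (L y)) = fun y =>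
        ((k : ℂ) + 1)⁻¹ • ∑ j, (wl ((dz j).comp (L y)) (pb (cl (a y) j) (L y)) +
      wl ((dzb j).comp (L y)) (pb (clb (a y) j) (L y))) := funext fun y => pb_euler _ _
    rw [h1]
    have hc : ∀ v : CN n, ContDiffOn ℝ ∞ (fun y => (a y).curryLeft v) U := by
      intro v
      exact (curryAt v).contDiff.comp_contDiffOn ha
    refine ContDiffOn.const_smul _ (ContDiffOn.sum fun j _ => ?_)
    refine ContDiffOn.add ?_ ?_
    · refine contDiffOn_wl (contDiffOn_const.clm_comp hL) (ih ?_ hL)
      exact ((hc _).sub ((hc _).const_smul Complex.I)).const_smul (1 / 2 : ℂ)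
    · refine contDiffOn_wl (contDiffOn_const.clm_comp hL) (ih ?_ hL)
      exact ((hc _).add ((hc _).const_smul Complex.I)).const_smul (1 / 2 : ℂ)

theorem main : S_EXT.{u} := by
  classical
  intro n X _ _ _ _ k c η K hK hKc hη hη0
  let W : atlas (CN n) X → CN n → Alt n k := fun c' y =>
    if y ∈ (c'.1.symm.trans c.1).source then
      pb (η ((c'.1.symm.trans c.1) y)) (fderiv ℝ (c'.1.symm.trans c.1) y) else 0
  have hcl : IsClosed (c.1.symm '' K) :=
    (hK.image_of_continuousOn (c.1.continuousOn_symm.mono hKc)).isClosed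
  have hsub : c.1.symm '' K ⊆ c.1.source := by
    rintro _ ⟨y, hy, rfl⟩
    exact c.1.map_target (hKc hy)
  have hoff : ∀ (c' : atlas (CN n) X), ∀ y ∈ c'.1.target, c'.1.symm y ∉ c.1.symm '' K →
      W c' y = 0 := by
    intro c' y hy hyK
    by_cases h : y ∈ (c'.1.symm.trans c.1).source
    · have h1 : η ((c'.1.symm.trans c.1) y) = 0 := by
        refine hη0 _ (trans_mem_target h) fun hmem => hyK ?_
        exact ⟨_, hmem, trans_symm_eq h⟩
      show (if y ∈ (c'.1.symm.trans c.1).source then _ else _) = _
      rw [if_pos h, h1]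
      ext v
      simp
    · show (if y ∈ (c'.1.symm.trans c.1).source then _ else _) = _
      rw [if_neg h]
  have hform : IsForm n X k W := by
    refine ⟨fun c' y hy => ?_, fun c' y hy => ?_, fun c' c'' y hy => ?_⟩
    · refine ContDiffAt.contDiffWithinAt ?_
      by_cases h : y ∈ (c'.1.symm.trans c.1).source
      · have hopen := (c'.1.symm.trans c.1).open_source
        have h1 : ContDiffOn ℝ ∞ (fun y => pb (η ((c'.1.symm.trans c.1) y))
            (fderiv ℝ (c'.1.symm.trans c.1) y)) (c'.1.symm.trans c.1).source := by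
          refine contDiffOn_pb k ?_ ?_
          · exact hη.comp (trans_contDiffOn c' c) fun z hz => trans_mem_target hz
          · exact (trans_contDiffOn c' c).fderiv_of_isOpen hopen (by simp)
        refine (h1.contDiffAt (hopen.mem_nhds h)).congr_of_eventuallyEq ?_
        filter_upwards [hopen.mem_nhds h] with z hz
        exact if_pos hz
      · have h1 : c'.1.symm y ∉ c.1.symm '' K := fun hmem =>
          h ((trans_source_iff c' c y).2 ⟨hy, hsub hmem⟩)
        have h2 : W c' =ᶠ[𝓝 y] fun _ => 0 := by
          have hcont : ContinuousAt c'.1.symm y := c'.1.continuousAt_symm hy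
          filter_upwards [c'.1.open_target.mem_nhds hy,
            hcont.eventually_mem (hcl.isOpen_compl.mem_nhds h1)] with x hx hx2
          exact hoff c' x hx hx2
        exact contDiffAt_const.congr_of_eventuallyEq h2
    · have h : y ∉ (c'.1.symm.trans c.1).source := fun h =>
        hy ((trans_source_iff c' c y).1 h).1
      exact if_neg h
    · have hiff : y ∈ (c'.1.symm.trans c.1).source ↔
          (c'.1.symm.trans c''.1) y ∈ (c''.1.symm.trans c.1).source := by
        rw [trans_source_iff, trans_source_iff, trans_symm_eq hy]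
        have h1 := (trans_source_iff c' c'' y).1 hy
        simp only [h1.1, true_and, trans_mem_target hy]
      by_cases h : y ∈ (c'.1.symm.trans c.1).source
      · have h2 := hiff.1 h
        show (if y ∈ (c'.1.symm.trans c.1).source then _ else _) = pb (if _ then _ else _) _
        rw [if_pos h, if_pos h2]
        have e1 : (c''.1.symm.trans c.1) ((c'.1.symm.trans c''.1) y) =
            (c'.1.symm.trans c.1) y := by
          have := trans_symm_eq hy
          show c.1 (c''.1.symm ((c'.1.symm.trans c''.1) y)) = c.1 (c'.1.symm y)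
          rw [this]
        have e2 : fderiv ℝ (c'.1.symm.trans c.1) y =
            (fderiv ℝ (c''.1.symm.trans c.1) ((c'.1.symm.trans c''.1) y)).comp
              (fderiv ℝ (c'.1.symm.trans c''.1) y) := by
          have h3 : ⇑(c'.1.symm.trans c.1) =ᶠ[𝓝 y]
              (c''.1.symm.trans c.1) ∘ (c'.1.symm.trans c''.1) := by
            filter_upwards [(c'.1.symm.trans c''.1).open_source.mem_nhds hy] with z hz
            show c.1 (c'.1.symm z) = c.1 (c''.1.symm ((c'.1.symm.trans c''.1) z))
            rw [trans_symm_eq hz]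
          rw [h3.fderiv_eq]
          refine fderiv_comp y ?_ ?_
          · exact ((trans_contDiffOn c'' c).contDiffAt
              ((c''.1.symm.trans c.1).open_source.mem_nhds h2)).differentiableAt (by simp)
          · exact ((trans_contDiffOn c' c'').contDiffAt
              ((c'.1.symm.trans c''.1).open_source.mem_nhds hy)).differentiableAt (by simp)
        rw [e1, e2]
        rfl
      · have h2 : (c'.1.symm.trans c''.1) y ∉ (c''.1.symm.trans c.1).source :=
          fun hh => h (hiff.2 hh)
        show (if y ∈ (c'.1.symm.trans c.1).source then _ else _) = pb (if _ then _ else _) _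
        rw [if_neg h, if_neg h2]
        ext v
        simp
  refine ⟨Forms.mk W hform, fun y hy => ?_, fun c' y hy hyK => hoff c' y hy hyK⟩
  have h : y ∈ (c.1.symm.trans c.1).source :=
    (trans_source_iff c c y).2 ⟨hy, c.1.map_target hy⟩
  show (if y ∈ (c.1.symm.trans c.1).source then _ else _) = _
  rw [if_pos h]
  have e1 : (c.1.symm.trans c.1) y = y := c.1.right_inv hy
  have e2 : fderiv ℝ (c.1.symm.trans c.1) y = ContinuousLinearMap.id ℝ (CN n) := by
    have h3 : ⇑(c.1.symm.trans c.1) =ᶠ[𝓝 y] id := by
      filter_upwards [c.1.open_target.mem_nhds hy] with z hz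
      exact c.1.right_inv hz
    rw [h3.fderiv_eq, fderiv_id]
  rw [e1, e2]
  ext v
  simp

end Pool.Agent.W469.FS.Ext
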