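import Pool.Agent.W491.FS.Stm

open scoped Manifold ContDiff Topology
open MeasureTheory Set

noncomputable section

namespace Pool.Agent.W469.FS.Int

open Pool.Agent.W491.FS

universe u

section aux

variable {n : ℕ} {X : Type u} [TopologicalSpace X] [ChartedSpace (CN n) X]

theorem dens_mul {ρ : X → ℂ} (hρ : IsSF n X ρ) {m : atlas (CN n) X → CN n → ℂ}
    (hm : IsDens n X m) : IsDens n X (fun c y => ρ (c.1.symm y) * m c y) where
  cont c := (hρ c).continuousOn.mul (hm.cont c)
  off c y hy := by simp only [hm.off c y hy, mul_zero]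
  compat c c' y hy := by
    rw [trans_symm_eq hy, hm.compat c c' y hy]
    ring

theorem int_on {U K : Set (CN n)} (hU : IsOpen U) (hK : IsCompact K) (hKU : K ⊆ U)
    {g : CN n → ℂ} (hg : ContinuousOn g U) (h0 : ∀ y ∈ U, y ∉ K → g y = 0) :
    IntegrableOn g U := by
  have h1 : IntegrableOn g K := (hg.mono hKU).integrableOn_compact hK
  exact h1.of_forall_sdiff_eq_zero hU.measurableSet fun x hx => h0 x hx.1 hx.2

end aux

theorem main (h1 : S_PU.{u}) (h2 : S_CV.{u}) : S_INT.{u} := by
  classical
  intro n X _ _ _ _ _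
  obtain ⟨N, c, ρ, K, hρ, hK, hsupp, hpos, hsum⟩ := h1 n X
  have hsub : ∀ i, (c i).1.symm '' K i ⊆ (c i).1.source := by
    rintro i _ ⟨y, hy, rfl⟩
    exact (c i).1.map_target ((hK i).2 hy)
  -- the integrands
  have hint : ∀ (m : atlas (CN n) X → CN n → ℂ), IsDens n X m → ∀ i,
      IntegrableOn (fun y => ρ i ((c i).1.symm y) * m (c i) y) (c i).1.target := by
    intro m hm i
    refine int_on (c i).1.open_target (hK i).1 (hK i).2 ((dens_mul (hρ i) hm).cont (c i)) ?_
    intro y hy hyK
    have : ρ i ((c i).1.symm y) = 0 := by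
      by_contra hcon
      obtain ⟨z, hz, hz2⟩ := hsupp i _ hcon
      have h3 : z = y := by
        have e1 := (c i).1.right_inv ((hK i).2 hz)
        have e2 := (c i).1.right_inv hy
        rw [← e1, ← e2, hz2]
      exact hyK (h3 ▸ hz)
    rw [this, zero_mul]
  refine ⟨fun m => ∑ i, ∫ y in (c i).1.target, ρ i ((c i).1.symm y) * m (c i) y, ?_, ?_, ?_, ?_⟩
  · intro m m' hm hm'
    rw [← Finset.sum_add_distrib]
    refine Finset.sum_congr rfl fun i _ => ?_
    rw [← integral_add (hint m hm i) (hint m' hm' i)]
    refine integral_congr_ae (Filter.Eventually.of_forall fun y => ?_)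
    simp only [Pi.add_apply]
    ring
  · intro r m hm
    rw [Finset.mul_sum]
    refine Finset.sum_congr rfl fun i _ => ?_
    rw [← integral_const_mul]
    refine integral_congr_ae (Filter.Eventually.of_forall fun y => ?_)
    simp only [Pi.smul_apply, smul_eq_mul]
    ring
  · intro c₀ L m hL hLc hm hm0
    have hsubL : c₀.1.symm '' L ⊆ c₀.1.source := by
      rintro _ ⟨y, hy, rfl⟩
      exact c₀.1.map_target (hLc hy)
    have e1 : ∀ i, ∫ y in (c i).1.target, ρ i ((c i).1.symm y) * m (c i) y =
        ∫ y in c₀.1.target, ρ i (c₀.1.symm y) * m c₀ y := by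
      intro i
      refine h2 n X (c i) c₀ _ (dens_mul (hρ i) hm) ?_ ?_
      · intro y hy hy2
        rw [hm0 (c i) y hy fun h => hy2 (hsubL h), mul_zero]
      · intro y hy hy2
        have : ρ i (c₀.1.symm y) = 0 := by
          by_contra hcon
          exact hy2 (hsub i (hsupp i _ hcon))
        rw [this, zero_mul]
    have hL0 : ∀ y ∈ c₀.1.target, y ∉ L → m c₀ y = 0 := by
      intro y hy hyL
      refine hm0 c₀ y hy ?_
      rintro ⟨z, hz, hz2⟩
      have h3 : z = y := by
        have e1 := c₀.1.right_inv (hLc hz)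
        have e2 := c₀.1.right_inv hy
        rw [← e1, ← e2, hz2]
      exact hyL (h3 ▸ hz)
    simp only [e1]
    rw [← integral_finsetSum]
    · refine integral_congr_ae (Filter.Eventually.of_forall fun y => ?_)
      simp only
      rw [← Finset.sum_mul, hsum, one_mul]
    · intro i _
      refine int_on c₀.1.open_target hL hLc ((dens_mul (hρ i) hm).cont c₀) ?_
      intro y hy hyL
      rw [hL0 y hy hyL, mul_zero]
  · intro m hm hmp
    have hre : ∀ i y, ρ i ((c i).1.symm y) * m (c i) y =
        (((ρ i ((c i).1.symm y) * m (c i) y).re : ℝ) : ℂ) ∧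
        0 ≤ (ρ i ((c i).1.symm y) * m (c i) y).re := by
      intro i y
      obtain ⟨r, hr, hr2⟩ := hpos i ((c i).1.symm y)
      obtain ⟨s, hs, hs2⟩ := hmp (c i) y
      rw [hr2, hs2, ← Complex.ofReal_mul, Complex.ofReal_re]
      exact ⟨rfl, mul_nonneg hr hs⟩
    have e1 : ∀ i, ∫ y in (c i).1.target, ρ i ((c i).1.symm y) * m (c i) y =
        ((∫ y in (c i).1.target, (ρ i ((c i).1.symm y) * m (c i) y).re : ℝ) : ℂ) := by
      intro i
      rw [← integral_complex_ofReal]
      exact integral_congr_ae (Filter.Eventually.of_forall fun y => (hre i y).1)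
    refine ⟨∑ i, ∫ y in (c i).1.target, (ρ i ((c i).1.symm y) * m (c i) y).re, ?_, ?_, ?_⟩
    · exact Finset.sum_nonneg fun i _ => integral_nonneg fun y => (hre i y).2
    · simp only [e1]
      push_cast
      rfl
    · intro h0
      have h3 := (Finset.sum_eq_zero_iff_of_nonneg fun i _ =>
        integral_nonneg fun y => (hre i y).2).1 h0
      have h4 : ∀ i, ∀ y ∈ (c i).1.target, ρ i ((c i).1.symm y) * m (c i) y = 0 := by
        intro i
        have h5 := h3 i (Finset.mem_univ i)
        have h6 : IntegrableOn (fun y => (ρ i ((c i).1.symm y) * m (c i) y).re)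
            (c i).1.target := (hint m hm i).re
        rw [setIntegral_eq_zero_iff_of_nonneg_ae
          (Filter.Eventually.of_forall fun y => (hre i y).2) h6] at h5
        have h7 : ContinuousOn (fun y => (ρ i ((c i).1.symm y) * m (c i) y).re)
            (c i).1.target :=
          Complex.continuous_re.comp_continuousOn ((dens_mul (hρ i) hm).cont (c i))
        have h8 := Measure.eqOn_open_of_ae_eq h5 (c i).1.open_target h7 continuousOn_const
        intro y hy
        rw [(hre i y).1]
        have := h8 hy
        simp only [Pi.zero_apply] at this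
        rw [this, Complex.ofReal_zero]
      funext c' y
      by_cases hy : y ∈ c'.1.target
      · have h5 : ∃ i, ρ i (c'.1.symm y) ≠ 0 := by
          by_contra hcon
          push Not at hcon
          have := hsum (c'.1.symm y)
          simp [hcon] at this
        obtain ⟨i, hi⟩ := h5
        have h6 : c'.1.symm y ∈ (c i).1.source := hsub i (hsupp i _ hi)
        have h7 : y ∈ (c'.1.symm.trans (c i).1).source := (trans_source_iff c' (c i) y).2 ⟨hy, h6⟩
        have h8 := h4 i _ (trans_mem_target h7)
        rw [trans_symm_eq h7] at h8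
        have h9 := (mul_eq_zero.1 h8).resolve_left hi
        rw [hm.compat c' (c i) y h7, h9, zero_mul]
        rfl
      · exact hm.off c' y hy

end Pool.Agent.W469.FS.Int
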