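import Pool.Agent.W491.FS.Stm

open scoped Manifold ContDiff Topology
open MeasureTheory Set

noncomputable section

namespace Pool.Agent.W469.FS.Ker

open Pool.Agent.W491.FS

universe u

/-- smooth cut-off functions -/
theorem exists_bump {n : ℕ} {K U : Set (CN n)} (hK : IsCompact K) (hU : IsOpen U) (h : K ⊆ U) :
    ∃ (χ : CN n → ℂ) (K3 : Set (CN n)), ContDiff ℝ ∞ χ ∧ IsCompact K3 ∧ K3 ⊆ U ∧
      (∀ x ∈ K, χ x = 1) ∧ ∀ x ∉ K3, χ x = 0 := by
  obtain ⟨L, hL, hKL, hLU⟩ := exists_compact_between hK hU h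
  obtain ⟨f, hf0, hf1, _⟩ := exists_contMDiffMap_zero_one_of_isClosed (n := (⊤ : ℕ∞)) 𝓘(ℝ, CN n)
    (s := (interior L)ᶜ) (t := K) isOpen_interior.isClosed_compl hK.isClosed
    (by
      rw [Set.disjoint_left]
      intro x hx hxK
      exact hx (hKL hxK))
  refine ⟨fun x => ((f x : ℝ) : ℂ), L, ?_, hL, hLU, fun x hx => ?_, fun x hx => ?_⟩
  · exact Complex.ofRealCLM.contDiff.comp (contMDiff_iff_contDiff.1 f.contMDiff)
  · have := hf1 hx
    simp only [Pi.one_apply] at this
    simp only [this, Complex.ofReal_one]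
  · have := hf0 (show x ∈ (interior L)ᶜ from fun hx2 => hx (interior_subset hx2))
    simp only [Pi.zero_apply] at this
    simp only [this, Complex.ofReal_zero]

theorem trans_linear {n : ℕ} {X : Type u} [TopologicalSpace X] [ChartedSpace (CN n) X]
    [IsManifold 𝓘(ℂ, CN n) ω X] (c c' : atlas (CN n) X) {y : CN n}
    (hy : y ∈ (c.1.symm.trans c'.1).source) (r : ℂ) (v : CN n) :
    fderiv ℝ (c.1.symm.trans c'.1) y (r • v) = r • fderiv ℝ (c.1.symm.trans c'.1) y v := by
  have h1 := (trans_contDiffOn_complex (n := n) (X := X) c c').contDiffAt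
    ((c.1.symm.trans c'.1).open_source.mem_nhds hy)
  have h2 : DifferentiableAt ℂ (c.1.symm.trans c'.1) y := h1.differentiableAt (by simp)
  rw [h2.fderiv_restrictScalars ℝ]
  simp

theorem main (_ : S_TYPE) (h2 : S_DET) : S_KER.{u} := by
  classical
  intro n X _ _ _ _ c c' K K' δ ψ ρ hK hKc hK' hK'c hδ hψ hψ0 hδK hρ hρ0
  obtain ⟨D, hD, hDt, hDu⟩ := h2 n
  have hK2 : IsCompact (Metric.cthickening δ K) := hK.cthickening
  obtain ⟨χ, K3, hχ, hK3, hK3c, hχ1, hχ0⟩ := exists_bump hK2 c.1.open_target hδK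
  obtain ⟨θ, K4, hθ, hK4, _, hθ1, hθ0⟩ := exists_bump hK isOpen_univ (subset_univ K)
  let τ : CN n → CN n := c'.1.symm.trans c.1
  let O : Set (CN n) := (c'.1.symm.trans c.1).source
  have hO : IsOpen O := (c'.1.symm.trans c.1).open_source
  have hOt : ∀ y ∈ O, y ∈ c'.1.target := fun y hy => ((trans_source_iff c' c y).1 hy).1
  let d : CN n → ℂ := fun y => D (fun i => fderiv ℝ τ y (eb i))
  have hτ : ContDiffOn ℝ ∞ τ O := trans_contDiffOn c' c
  have hd : ContDiffOn ℝ ∞ d O := by
    have h3 : ContDiffOn ℝ ∞ (fun y => fun i : Fin n => fderiv ℝ τ y (eb i)) O := by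
      refine contDiffOn_pi.2 fun i => ?_
      exact (hτ.fderiv_of_isOpen hO (by simp)).clm_apply contDiffOn_const
    exact (D.toContinuousMultilinearMap.contDiff (n := ∞)).comp_contDiffOn h3
  have hcl : IsClosed (c.1.symm '' K3) :=
    (hK3.image_of_continuousOn (c.1.continuousOn_symm.mono hK3c)).isClosed
  let C : Set (CN n) := K' ∩ c'.1.symm ⁻¹' (c.1.symm '' K3)
  have hCcl : IsClosed C :=
    (c'.1.continuousOn_symm.mono hK'c).preimage_isClosed_of_isClosed hK'.isClosed hcl
  have hCc : IsCompact C := hK'.of_isClosed_subset hCcl inter_subset_left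
  have hCO : C ⊆ O := by
    rintro y ⟨hy1, z, hz, hz2⟩
    refine (trans_source_iff c' c y).2 ⟨hK'c hy1, ?_⟩
    rw [← hz2]
    exact c.1.map_target (hK3c hz)
  let κ : CN n × CN n → ℂ := fun p => if p.1 ∈ O then
    ρ p.1 * χ (τ p.1) * d p.1 * ψ (p.2 - τ p.1) * θ p.2 else 0
  have hκ0 : ∀ p : CN n × CN n, p ∉ C ×ˢ K4 → κ p = 0 := by
    rintro ⟨y, x⟩ hp
    by_cases hy : y ∈ O
    · show (if y ∈ O then ρ y * χ (τ y) * d y * ψ (x - τ y) * θ x else 0) = 0
      rw [if_pos hy]
      by_cases hx : x ∈ K4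
      · have hyC : y ∉ C := fun h => hp ⟨h, hx⟩
        by_cases hyK : y ∈ K'
        · have h3 : τ y ∉ K3 := fun h => hyC ⟨hyK, τ y, h, trans_symm_eq hy⟩
          simp [hχ0 _ h3]
        · simp [hρ0 y (hOt y hy) hyK]
      · simp [hθ0 x hx]
    · exact if_neg hy
  refine ⟨κ, ?_, HasCompactSupport.intro (hCc.prod hK4) hκ0, ?_, ?_⟩
  · rw [contDiff_iff_contDiffAt]
    rintro ⟨y, x⟩
    by_cases hy : y ∈ O
    · have h3 : ContDiffOn ℝ ∞ (fun p : CN n × CN n =>
          ρ p.1 * χ (τ p.1) * d p.1 * ψ (p.2 - τ p.1) * θ p.2) (O ×ˢ univ) := by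
        have hfst : ContDiffOn ℝ ∞ (Prod.fst : CN n × CN n → CN n) (O ×ˢ univ) :=
          contDiffOn_fst
        have hsnd : ContDiffOn ℝ ∞ (Prod.snd : CN n × CN n → CN n) (O ×ˢ univ) :=
          contDiffOn_snd
        have hm : MapsTo (Prod.fst : CN n × CN n → CN n) (O ×ˢ univ) O := fun p hp => hp.1
        have hτ' : ContDiffOn ℝ ∞ (fun p : CN n × CN n => τ p.1) (O ×ˢ univ) :=
          hτ.comp hfst hm
        refine ((((?_ : ContDiffOn ℝ ∞ _ _).mul ?_).mul ?_).mul ?_).mul ?_
        · exact (hρ.mono fun y hy => hOt y hy).comp hfst hm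
        · exact hχ.comp_contDiffOn hτ'
        · exact hd.comp hfst hm
        · exact hψ.comp_contDiffOn (hsnd.sub hτ')
        · exact hθ.comp_contDiffOn hsnd
      have hopen : IsOpen (O ×ˢ (univ : Set (CN n))) := hO.prod isOpen_univ
      have hmem : (y, x) ∈ O ×ˢ (univ : Set (CN n)) := ⟨hy, mem_univ _⟩
      refine (h3.contDiffAt (hopen.mem_nhds hmem)).congr_of_eventuallyEq ?_
      filter_upwards [hopen.mem_nhds hmem] with p hp
      exact if_pos hp.1
    · have hopen : IsOpen (Cᶜ ×ˢ (univ : Set (CN n))) := hCcl.isOpen_compl.prod isOpen_univ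
      have hmem : (y, x) ∈ Cᶜ ×ˢ (univ : Set (CN n)) := ⟨fun h => hy (hCO h), mem_univ _⟩
      refine (contDiffAt_const (c := (0 : ℂ))).congr_of_eventuallyEq ?_
      filter_upwards [hopen.mem_nhds hmem] with p hp
      exact hκ0 p fun h => hp.1 h.1
  · intro y hy x
    exact hκ0 (y, x) fun h => hy h.1.1
  · intro f hf hf0 w hw y hy
    by_cases hyO : y ∈ O
    · have e1 : w.loc c' y = pb (w.loc c (τ y)) (fderiv ℝ τ y) :=
        w.isForm.compat c' c y hyO
      have hτy : τ y ∈ c.1.target := trans_mem_target hyO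
      have e2 : w.loc c (τ y) = (∫ x, ψ (x - τ y) * f x) • D := by
        have := hDu _ (hw.type c (τ y))
        rw [this, hw.coef _ hτy]
      have e3 : w.loc c' y (ebt n) = (∫ x, ψ (x - τ y) * f x) * d y := by
        rw [e1, e2]
        simp only [ContinuousAlternatingMap.compContinuousLinearMap_apply,
          ContinuousAlternatingMap.smul_apply, smul_eq_mul]
        rfl
      have e4 : ∀ x, κ (y, x) * f x = ρ y * χ (τ y) * d y * (ψ (x - τ y) * f x) := by
        intro x
        show (if y ∈ O then ρ y * χ (τ y) * d y * ψ (x - τ y) * θ x else 0) * f x = _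
        rw [if_pos hyO]
        by_cases hx : x ∈ K
        · rw [hθ1 x hx]
          ring
        · rw [hf0 x hx]
          ring
      simp only [e4]
      rw [integral_const_mul, e3]
      by_cases hK2y : τ y ∈ Metric.cthickening δ K
      · rw [hχ1 _ hK2y]
        ring
      · have : ∀ x, ψ (x - τ y) * f x = 0 := by
          intro x
          by_cases hx : x ∈ K
          · have : δ < ‖x - τ y‖ := by
              by_contra hcon
              refine hK2y (Metric.mem_cthickening_of_dist_le _ x δ K hx ?_)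
              rw [dist_comm, dist_eq_norm]
              exact not_lt.1 hcon
            rw [hψ0 _ this, zero_mul]
          · rw [hf0 x hx, mul_zero]
        simp [this]
    · have e1 : w.loc c' y = 0 := by
        refine hw.off c' y hy ?_
        rintro ⟨z, hz, hz2⟩
        refine hyO ((trans_source_iff c' c y).2 ⟨hy, ?_⟩)
        rw [← hz2]
        exact c.1.map_target (hδK hz)
      have e2 : ∀ x, κ (y, x) = 0 := fun x => hκ0 (y, x) fun h => hyO (hCO h.1)
      simp [e1, e2]

end Pool.Agent.W469.FS.Ker
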