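import Pool.Agent.W491.FS.Stm

open scoped Manifold ContDiff Topology
open MeasureTheory Set

noncomputable section

namespace Pool.Agent.W469.FS.Lsol

open Pool.Agent.W491.FS

universe u

theorem pb_type {m n k p q : ℕ} {a : Alt n k} (ha : IsType p q a) {L : CN m →L[ℝ] CN n}
    (hL : ∀ (c : ℂ) v, L (c • v) = c • L v) : IsType p q (pb a L) := by
  intro l v
  simp only [ContinuousAlternatingMap.compContinuousLinearMap_apply, Function.comp_def, hL]
  exact ha l _

theorem zsm {n k : ℕ} (D : Alt n k) : (0 : ℂ) • D = 0 := by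
  ext v
  simp

theorem D_ebt {n : ℕ} {D : Alt n n}
    (hD : ∀ v : Fin n → CN n, D v = starRingEnd ℂ (Matrix.det (Matrix.of v))) :
    D (ebt n) = 1 := by
  rw [hD]
  have : Matrix.of (ebt n) = (1 : Matrix (Fin n) (Fin n) ℂ) := by
    ext i j
    simp [ebt, eb, Matrix.one_apply, Pi.single_apply, eq_comm]
  rw [this]
  simp

theorem contDiff_pdb {n : ℕ} {b : CN n → ℂ} (hb : ContDiff ℝ ∞ b) (j : Fin n) :
    ContDiff ℝ ∞ (pdb j b) := by
  have hg' : ContDiff ℝ ∞ (fderiv ℝ b) := hb.fderiv_right (by simp)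
  unfold pdb comp01
  exact (((hg'.clm_apply contDiff_const)).add
    ((hg'.clm_apply contDiff_const).const_smul Complex.I)).const_smul (1 / 2 : ℂ)

section manifold

variable {n : ℕ} {X : Type u} [TopologicalSpace X] [ChartedSpace (CN n) X]

theorem trans_linear [IsManifold 𝓘(ℂ, CN n) ω X] (c c' : atlas (CN n) X) {y : CN n}
    (hy : y ∈ (c.1.symm.trans c'.1).source) (r : ℂ) (v : CN n) :
    fderiv ℝ (c.1.symm.trans c'.1) y (r • v) = r • fderiv ℝ (c.1.symm.trans c'.1) y v := by
  have h1 := (trans_contDiffOn_complex (n := n) (X := X) c c').contDiffAt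
    ((c.1.symm.trans c'.1).open_source.mem_nhds hy)
  have h2 : DifferentiableAt ℂ (c.1.symm.trans c'.1) y := h1.differentiableAt (by simp)
  rw [h2.fderiv_restrictScalars ℝ]
  simp

/-- points outside the image of a subset of the target -/
theorem notMem_image {c : atlas (CN n) X} {K : Set (CN n)} (hK : K ⊆ c.1.target) {x : X}
    (hx : x ∉ c.1.source) : x ∉ c.1.symm '' K := by
  rintro ⟨y, hy, rfl⟩
  exact hx (c.1.map_target (hK hy))

theorem exists_isExt [IsManifold 𝓘(ℂ, CN n) ω X] [T2Space X] (h5 : S_EXT.{u}) {D : Alt n n}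
    (hD : ∀ v : Fin n → CN n, D v = starRingEnd ℂ (Matrix.det (Matrix.of v)))
    (hDt : IsType 0 n D) (c : atlas (CN n) X) {K : Set (CN n)} (hK : IsCompact K)
    (hKc : K ⊆ c.1.target) {f : CN n → ℂ} (hf : ContDiff ℝ ∞ f) (hf0 : ∀ z ∉ K, f z = 0) :
    ∃ g : Forms n X n, IsExt c K f g := by
  obtain ⟨w, hw1, hw2⟩ := h5 n X n c (fun y => f y • D) K hK hKc
    (hf.smul contDiff_const).contDiffOn (fun y _ hy => by rw [hf0 y hy, zsm])
  refine ⟨w, ?_, ?_, hw2⟩
  · intro c' y
    by_cases hy : y ∈ c'.1.target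
    · by_cases hy2 : c'.1.symm y ∈ c.1.source
      · have hy3 : y ∈ (c'.1.symm.trans c.1).source := (trans_source_iff c' c y).2 ⟨hy, hy2⟩
        rw [w.isForm.compat c' c y hy3]
        refine pb_type ?_ (trans_linear c' c hy3)
        rw [hw1 _ (trans_mem_target hy3)]
        exact hDt.smul _
      · rw [hw2 c' y hy (notMem_image hKc hy2)]
        exact IsType.zero
    · rw [w.isForm.off c' y hy]
      exact IsType.zero
  · intro y hy
    rw [hw1 y hy]
    simp [D_ebt hD]

end manifold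

theorem main (h1 : S_TYPE) (h2 : S_DET) (h3 : S_LOCB) (h4 : S_TJ) (h5 : S_EXT.{u})
    (h6 : S_FIL.{u}) : S_LSOL.{u} := by
  intro k X _ _ _ _ c K hK hKc
  obtain ⟨δ, hδ, hδK⟩ := hK.exists_cthickening_subset_open c.1.open_target hKc
  obtain ⟨ψ, hψ, hψ0, hψ1⟩ := h4 (k + 1) δ (by omega) hδ
  obtain ⟨D, hD, hDt, hDu⟩ := h2 (k + 1)
  refine ⟨δ, ψ, hδ, hψ, hψ0, hδK, fun f hf hf0 => ?_⟩
  have hfs : HasCompactSupport f := HasCompactSupport.intro hK hf0
  have hK' : IsCompact (Metric.cthickening δ K) := hK.cthickening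
  have hKK' : K ⊆ Metric.cthickening δ K := Metric.self_subset_cthickening K
  obtain ⟨b, hb, hb0, hbs⟩ := hψ1 f hf hfs
  have hts : tsupport f ⊆ K := closure_minimal (fun z hz => by
    by_contra hcon
    exact hz (hf0 z hcon)) hK.isClosed
  have hbK : ∀ z ∉ Metric.cthickening δ K, ∀ j, b j z = 0 := by
    intro z hz j
    by_contra hcon
    obtain ⟨z', hz', hd⟩ := hb0 j z hcon
    exact hz (Metric.mem_cthickening_of_dist_le z z' δ K (hts hz') hd)
  have hS : ∀ z, ∫ x, ψ (x - z) * f x = f z - ∑ j, pdb j (b j) z := by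
    intro z
    rw [hbs z, ← integral_add_left_eq_self (fun x => ψ (x - z) * f x) z]
    simp
  have hSs : ContDiff ℝ ∞ (fun z => ∫ x, ψ (x - z) * f x) := by
    have : (fun z => ∫ x, ψ (x - z) * f x) = fun z => f z - ∑ j, pdb j (b j) z := funext hS
    rw [this]
    exact hf.sub (ContDiff.sum fun j _ => contDiff_pdb (hb j) j)
  have hS0 : ∀ z ∉ Metric.cthickening δ K, ∫ x, ψ (x - z) * f x = 0 := by
    intro z hz
    have : ∀ x, ψ (x - z) * f x = 0 := by
      intro x
      by_cases hx : x ∈ K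
      · have : δ < ‖x - z‖ := by
          by_contra hcon
          refine hz (Metric.mem_cthickening_of_dist_le z x δ K hx ?_)
          rw [dist_comm, dist_eq_norm]
          exact not_lt.1 hcon
        rw [hψ0 _ this, zero_mul]
      · rw [hf0 x hx, mul_zero]
    simp [this]
  obtain ⟨F, hF, hF0, hFd⟩ := h3 k b hb
  obtain ⟨g, hg⟩ := exists_isExt h5 hD hDt c hK hKc hf hf0
  obtain ⟨w, hw⟩ := exists_isExt h5 hD hDt c hK' hδK hSs hS0
  obtain ⟨β, hβ1, hβ2⟩ := h5 (k + 1) X k c F _ hK' hδK hF.contDiffOn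
    (fun y _ hy => hF0 y (hbK y hy))
  refine ⟨g, w, β, hg, hw, ?_⟩
  obtain ⟨t1, t2, t3, t4, t5, t6, t7, t8⟩ := h1 (k + 1) (k + 1)
  have hp0 : prj (k + 1) 0 (0 : Alt (k + 1) (k + 1)) = 0 := by
    have := t2 0 0 0
    rwa [zsm, zsm] at this
  obtain ⟨P, hP⟩ := t1 0
  rw [h6]
  intro p' hp' c' y
  obtain rfl : p' = 0 := by omega
  -- the chart `c`
  have key : ∀ z ∈ c.1.target,
      prj (k + 1) 0 ((g - w - extD (k + 1) X k β).loc c z) = 0 := by
    intro z hz
    have e1 := hDu _ (t3 0 ((g - w - extD (k + 1) X k β).loc c z) (Nat.zero_le _))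
    rw [e1]
    have e2 : prj (k + 1) 0 ((g - w - extD (k + 1) X k β).loc c z) (ebt (k + 1)) = 0 := by
      simp only [Forms.loc_sub, Pi.sub_apply]
      rw [extD_loc β c hz, ← hP, map_sub, map_sub, hP, hP, hP,
        t6 0 (k + 1) (g.loc c z) (by omega) (hg.type c z),
        t6 0 (k + 1) (w.loc c z) (by omega) (hw.type c z)]
      have e3 : extDeriv (β.loc c) z = extDeriv F z := by
        apply Filter.EventuallyEq.extDeriv_eq
        filter_upwards [c.1.open_target.mem_nhds hz] with x hx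
        exact hβ1 x hx
      rw [e3]
      simp only [ContinuousAlternatingMap.sub_apply]
      rw [hFd z, hg.coef z hz, hw.coef z hz, hS z]
      ring
    rw [e2, zsm]
  by_cases hy : y ∈ c'.1.target
  · by_cases hy2 : c'.1.symm y ∈ c.1.source
    · have hy3 : y ∈ (c'.1.symm.trans c.1).source := (trans_source_iff c' c y).2 ⟨hy, hy2⟩
      rw [(g - w - extD (k + 1) X k β).isForm.compat c' c y hy3,
        t8 (k + 1) _ (trans_linear c' c hy3) 0, key _ (trans_mem_target hy3)]
      ext v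
      simp
    · have e1 : g.loc c' y = 0 := hg.off c' y hy (notMem_image hKc hy2)
      have e2 : w.loc c' y = 0 := hw.off c' y hy (notMem_image hδK hy2)
      have hcl : IsClosed (c.1.symm '' Metric.cthickening δ K) :=
        (hK'.image_of_continuousOn (c.1.continuousOn_symm.mono hδK)).isClosed
      have e3 : extDeriv (β.loc c') y = 0 := by
        have h7 : β.loc c' =ᶠ[𝓝 y] fun _ => 0 := by
          have hcont : ContinuousAt c'.1.symm y := c'.1.continuousAt_symm hy
          filter_upwards [c'.1.open_target.mem_nhds hy,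
            hcont.eventually_mem (hcl.isOpen_compl.mem_nhds (notMem_image hδK hy2))] with x hx hx2
          exact hβ2 c' x hx hx2
        rw [h7.extDeriv_eq]
        have h8 : fderiv ℝ (fun _ : CN (k + 1) => (0 : Alt (k + 1) k)) y = 0 := by simp
        rw [extDeriv, h8]
        exact map_zero (ContinuousAlternatingMap.alternatizeUncurryFinCLM (n := k) ℝ
          (CN (k + 1)) ℂ)
      simp only [Forms.loc_sub, Pi.sub_apply]
      rw [extD_loc β c' hy, e1, e2, e3, sub_zero, sub_zero, hp0]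
  · rw [(g - w - extD (k + 1) X k β).isForm.off c' y hy, hp0]

end Pool.Agent.W469.FS.Lsol
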