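import Pool.Agent.W491.FS.Stm

open scoped Manifold ContDiff Topology
open MeasureTheory Set

noncomputable section

namespace Pool.Agent.W469.FS.Tj

open Pool.Agent.W491.FS

section gen

variable {n : ℕ} {S : Type*} [MeasurableSpace S] {μ : Measure S}

theorem int_of_bdd {F : Type*} [NormedAddCommGroup F] [NormedSpace ℂ F]
    {c : S → ℂ} (hc : Integrable c μ) {φ : S → CN n} (hφ : Measurable φ) {g : CN n → F}
    (hg : Continuous g) (hs : HasCompactSupport g) (z : CN n) :
    Integrable (fun s => c s • g (z + φ s)) μ := by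
  obtain ⟨C, hC⟩ := hs.exists_bound_of_continuous hg
  refine Integrable.mono' (g := fun s => ‖c s‖ * C) (hc.norm.mul_const C) ?_ ?_
  · refine hc.aestronglyMeasurable.smul ?_
    have h1 : StronglyMeasurable (fun s => g (z + φ s)) :=
      hg.stronglyMeasurable.comp_measurable (measurable_const.add hφ)
    exact h1.aestronglyMeasurable
  · refine Filter.Eventually.of_forall fun s => ?_
    rw [norm_smul]
    gcongr
    exact hC _

theorem gen_hasFDerivAt {F : Type*} [NormedAddCommGroup F] [NormedSpace ℝ F] [NormedSpace ℂ F]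
    [SMulCommClass ℝ ℂ F]
    {c : S → ℂ} (hc : Integrable c μ) {φ : S → CN n} (hφ : Measurable φ) {g : CN n → F}
    (hg : ContDiff ℝ ∞ g) (hs : HasCompactSupport g) (z : CN n) :
    HasFDerivAt (fun z => ∫ s, c s • g (z + φ s) ∂μ) (∫ s, c s • fderiv ℝ g (z + φ s) ∂μ) z := by
  have hg' : Continuous (fderiv ℝ g) := hg.continuous_fderiv (by simp)
  have hs' : HasCompactSupport (fderiv ℝ g) := hs.fderiv ℝ
  obtain ⟨C, hC⟩ := hs'.exists_bound_of_continuous hg'
  refine hasFDerivAt_integral_of_dominated_of_fderiv_le (s := Set.univ)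
    (F := fun z s => c s • g (z + φ s)) (F' := fun z s => c s • fderiv ℝ g (z + φ s))
    (bound := fun s => ‖c s‖ * C) Filter.univ_mem
    (Filter.Eventually.of_forall fun x => (int_of_bdd hc hφ hg.continuous hs x).aestronglyMeasurable)
    (int_of_bdd hc hφ hg.continuous hs z) (int_of_bdd hc hφ hg' hs' z).aestronglyMeasurable ?_
    (hc.norm.mul_const C) ?_
  · refine Filter.Eventually.of_forall fun s x _ => ?_
    rw [norm_smul]
    gcongr
    exact hC _
  · refine Filter.Eventually.of_forall fun s x _ => ?_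
    have h1 : HasFDerivAt (fun x => g (x + φ s)) (fderiv ℝ g (x + φ s)) x := by
      have h2 := ((hg.differentiable (by simp)) (x + φ s)).hasFDerivAt
      exact (hasFDerivAt_comp_add_right (φ s)).2 h2
    exact h1.const_smul (c s)

theorem gen_contDiff_nat (m : ℕ) : ∀ {F : Type} [NormedAddCommGroup F] [NormedSpace ℝ F]
    [NormedSpace ℂ F] [SMulCommClass ℝ ℂ F]
    {c : S → ℂ} (_ : Integrable c μ) {φ : S → CN n} (_ : Measurable φ) {g : CN n → F}
    (_ : ContDiff ℝ ∞ g) (_ : HasCompactSupport g),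
    ContDiff ℝ m (fun z => ∫ s, c s • g (z + φ s) ∂μ) := by
  induction m with
  | zero =>
    intro F _ _ _ _ c hc φ hφ g hg hs
    rw [Nat.cast_zero, contDiff_zero]
    exact continuous_iff_continuousAt.2 fun z => (gen_hasFDerivAt hc hφ hg hs z).continuousAt
  | succ m ih =>
    intro F _ _ _ _ c hc φ hφ g hg hs
    have h1 : ContDiff ℝ ((m : ℕ∞) + 1 : ℕ∞) (fun z => ∫ s, c s • g (z + φ s) ∂μ) := by
      rw [show (((m : ℕ∞) + 1 : ℕ∞) : WithTop ℕ∞) = ((m : ℕ) : WithTop ℕ∞) + 1 from rfl,
        contDiff_succ_iff_fderiv]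
      refine ⟨fun z => (gen_hasFDerivAt hc hφ hg hs z).differentiableAt, ?_, ?_⟩
      · simp
      · have h2 : (fderiv ℝ fun z => ∫ s, c s • g (z + φ s) ∂μ) =
            fun z => ∫ s, c s • fderiv ℝ g (z + φ s) ∂μ := by
          funext z
          exact (gen_hasFDerivAt hc hφ hg hs z).fderiv
        rw [h2]
        exact ih hc hφ (hg.fderiv_right (by simp)) (hs.fderiv ℝ)
    exact h1

theorem gen_contDiff {c : S → ℂ} (hc : Integrable c μ) {φ : S → CN n} (hφ : Measurable φ)
    {g : CN n → ℂ} (hg : ContDiff ℝ ∞ g) (hs : HasCompactSupport g) :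
    ContDiff ℝ ∞ (fun z => ∫ s, c s • g (z + φ s) ∂μ) := by
  rw [contDiff_infty]
  intro m
  exact gen_contDiff_nat m hc hφ hg hs

theorem gen_pdb {c : S → ℂ} (hc : Integrable c μ) {φ : S → CN n} (hφ : Measurable φ)
    {g : CN n → ℂ} (hg : ContDiff ℝ ∞ g) (hs : HasCompactSupport g) (j : Fin n) (z : CN n) :
    pdb j (fun z => ∫ s, c s • g (z + φ s) ∂μ) z = ∫ s, c s • pdb j g (z + φ s) ∂μ := by
  have hg' : Continuous (fderiv ℝ g) := hg.continuous_fderiv (by simp)
  have hs' : HasCompactSupport (fderiv ℝ g) := hs.fderiv ℝ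
  have hi := int_of_bdd hc hφ hg' hs' z
  unfold pdb comp01
  rw [(gen_hasFDerivAt hc hφ hg hs z).fderiv]
  have e : ∀ v : CN n, (∫ s, c s • fderiv ℝ g (z + φ s) ∂μ) v =
      ∫ s, c s • (fderiv ℝ g (z + φ s) v) ∂μ := by
    intro v
    rw [ContinuousLinearMap.integral_apply hi]
    rfl
  have hv : ∀ v : CN n, Integrable (fun s => c s • (fderiv ℝ g (z + φ s) v)) μ := by
    intro v
    exact hi.apply_continuousLinearMap v
  rw [e, e]
  simp only [smul_eq_mul] at hv ⊢
  rw [← integral_const_mul, ← integral_add (hv _) ((hv _).const_mul Complex.I),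
    ← integral_const_mul]
  refine integral_congr_ae (Filter.Eventually.of_forall fun s => ?_)
  simp only
  ring

end gen

section rot

variable {n : ℕ}

theorem mp_smul {u : ℂ} (hu : ‖u‖ = 1) :
    MeasurePreserving (fun w : CN n => u • w) volume volume := by
  have h1 : ∀ i : Fin n, MeasurePreserving (fun x : ℂ => u * x) volume volume := by
    intro i
    have := (rotation (⟨u, mem_sphere_zero_iff_norm.2 hu⟩ : Circle)).measurePreserving
    exact this
  exact volume_preserving_pi h1

theorem rot_int {u : ℂ} (hu : ‖u‖ = 1) (f : CN n → ℂ) : ∫ w, f (u • w) = ∫ w, f w := by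
  have hu0 : u ≠ 0 := by rintro rfl; simp at hu
  exact (mp_smul hu).integral_comp (Homeomorph.smulOfNeZero u hu0).measurableEmbedding f

theorem curve {ψ g : CN n → ℂ} (hψ : Continuous ψ) (hψs : HasCompactSupport ψ)
    (hg : ContDiff ℝ ∞ g) (hs : HasCompactSupport g) (z : CN n) {A A' : ℝ → ℂ}
    (hA : ∀ t, HasDerivAt A (A' t) t) {K : ℝ} (hK : ∀ t, ‖A' t‖ ≤ K) (t : ℝ) :
    HasDerivAt (fun t => ∫ w, ψ w * g (z + A t • w))
      (∫ w, ψ w * fderiv ℝ g (z + A t • w) (A' t • w)) t := by
  have hg' : Continuous (fderiv ℝ g) := hg.continuous_fderiv (by simp)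
  have hs' : HasCompactSupport (fderiv ℝ g) := hs.fderiv ℝ
  obtain ⟨C, hC⟩ := hs'.exists_bound_of_continuous hg'
  have hC0 : 0 ≤ C := (norm_nonneg _).trans (hC 0)
  have hcont : ∀ t, Continuous (fun w : CN n => ψ w * g (z + A t • w)) := fun t =>
    hψ.mul (hg.continuous.comp (by fun_prop))
  have hcont' : ∀ t, Continuous (fun w : CN n => ψ w * fderiv ℝ g (z + A t • w) (A' t • w)) := by
    intro t
    refine hψ.mul ?_
    exact (hg'.comp (by fun_prop)).clm_apply (by fun_prop)
  refine (hasDerivAt_integral_of_dominated_loc_of_deriv_le (s := Set.univ)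
    (F := fun t w => ψ w * g (z + A t • w))
    (F' := fun t w => ψ w * fderiv ℝ g (z + A t • w) (A' t • w))
    (bound := fun w => ‖ψ w‖ * (C * (K * ‖w‖))) Filter.univ_mem
    (Filter.Eventually.of_forall fun x => (hcont x).aestronglyMeasurable) ?_
    (hcont' t).aestronglyMeasurable ?_ ?_ ?_).2
  · exact (hcont t).integrable_of_hasCompactSupport (hψs.mul_right)
  · refine Filter.Eventually.of_forall fun w t _ => ?_
    rw [norm_mul]
    gcongr
    refine (ContinuousLinearMap.le_opNorm _ _).trans ?_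
    rw [norm_smul]
    gcongr
    · exact hC _
    · exact hK t
  · refine Continuous.integrable_of_hasCompactSupport (by fun_prop) ?_
    exact hψs.norm.mul_right
  · refine Filter.Eventually.of_forall fun w t _ => ?_
    have h2 := ((hg.differentiable (by simp)) (z + A t • w)).hasFDerivAt
    have h3 : HasDerivAt (fun t => z + A t • w) (A' t • w) t :=
      ((hA t).smul_const w).const_add z
    exact (h2.comp_hasDerivAt t h3).const_mul (ψ w)

theorem pdb_sum (T : CN n →L[ℝ] ℂ) (w : CN n) :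
    T w + Complex.I * T (Complex.I • w) = 2 * ∑ j, starRingEnd ℂ (w j) * comp01 T j := by
  have h1 := decomp_apply (T : CN n →ₗ[ℝ] ℂ) w
  have h2 := decomp_apply (T : CN n →ₗ[ℝ] ℂ) (Complex.I • w)
  change T w = _ at h1
  change T (Complex.I • w) = _ at h2
  rw [h1, h2, Finset.mul_sum, Finset.mul_sum, ← Finset.sum_add_distrib]
  refine Finset.sum_congr rfl fun j _ => ?_
  have c1 : comp10 (⇑(T : CN n →ₗ[ℝ] ℂ)) j = comp10 (⇑T) j := rfl
  have c2 : comp01 (⇑(T : CN n →ₗ[ℝ] ℂ)) j = comp01 (⇑T) j := rfl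
  rw [c1, c2]
  simp only [Pi.smul_apply, smul_eq_mul, map_mul, Complex.conj_I]
  linear_combination (w j * comp10 (⇑T) j - starRingEnd ℂ (w j) * comp01 (⇑T) j) * Complex.I_mul_I

/-- the radial derivative in terms of Wirtinger derivatives -/
theorem radial {ψ g : CN n → ℂ} (hψ : Continuous ψ) (hψs : HasCompactSupport ψ)
    (hrot : ∀ (u : ℂ), ‖u‖ = 1 → ∀ w, ψ (u • w) = ψ w)
    (hg : ContDiff ℝ ∞ g) (hs : HasCompactSupport g) (z : CN n) {r : ℝ} (hr : r ≠ 0) :
    HasDerivAt (fun r : ℝ => ∫ w, ψ w * g (z + (r : ℂ) • w))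
      (∫ w, ψ w * (2 * ∑ j, starRingEnd ℂ (w j) * pdb j g (z + (r : ℂ) • w))) r := by
  have hg' : Continuous (fderiv ℝ g) := hg.continuous_fderiv (by simp)
  have h1 := curve hψ hψs hg hs z (A := fun t : ℝ => (t : ℂ)) (A' := fun _ => 1) (K := 1)
    (fun t => Complex.ofRealCLM.hasDerivAt) (fun t => by simp) r
  have h2 := curve hψ hψs hg hs z (A := fun t : ℝ => (r : ℂ) * Complex.exp (t * Complex.I))
    (A' := fun t => (r : ℂ) * (Complex.exp (t * Complex.I) * Complex.I)) (K := |r|)
    (fun t => by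
      have h3 : HasDerivAt (fun t : ℝ => (t : ℂ) * Complex.I) Complex.I t := by
        simpa using (Complex.ofRealCLM.hasDerivAt (x := t)).mul_const Complex.I
      exact (h3.cexp).const_mul (r : ℂ))
    (fun t => by simp [Complex.norm_exp]) 0
  have h4 : (fun t : ℝ => ∫ w, ψ w * g (z + ((r : ℂ) * Complex.exp (t * Complex.I)) • w)) =
      fun t => ∫ w, ψ w * g (z + (r : ℂ) • w) := by
    funext t
    rw [← rot_int (u := Complex.exp (t * Complex.I)) (by simp [Complex.norm_exp])
      (fun w => ψ w * g (z + (r : ℂ) • w))]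
    refine integral_congr_ae (Filter.Eventually.of_forall fun w => ?_)
    simp only
    rw [hrot _ (by simp [Complex.norm_exp]), smul_smul]
  rw [h4] at h2
  have h5 := h2.unique (hasDerivAt_const _ _)
  simp only [Complex.ofReal_zero, zero_mul, Complex.exp_zero, mul_one, one_mul] at h5
  have h6 : ∫ w, ψ w * fderiv ℝ g (z + (r : ℂ) • w) (Complex.I • w) = 0 := by
    have h7 : ∀ w : CN n, ψ w * fderiv ℝ g (z + (r : ℂ) • w) (((r : ℂ) * Complex.I) • w) =
        (r : ℂ) * (ψ w * fderiv ℝ g (z + (r : ℂ) • w) (Complex.I • w)) := by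
      intro w
      have : ((r : ℂ) * Complex.I) • w = r • (Complex.I • w) := by
        rw [mul_smul]; rfl
      rw [this, map_smul, Complex.real_smul]
      ring
    simp only [h7] at h5
    rw [integral_const_mul] at h5
    exact (mul_eq_zero.1 h5).resolve_left (by exact_mod_cast hr)
  have h8 : ∫ w, ψ w * fderiv ℝ g (z + (r : ℂ) • w) ((1 : ℂ) • w) =
      ∫ w, ψ w * (2 * ∑ j, starRingEnd ℂ (w j) * pdb j g (z + (r : ℂ) • w)) := by
    have e1 : ∀ v : CN n → CN n, Continuous v →
        Integrable (fun w : CN n => ψ w * fderiv ℝ g (z + (r : ℂ) • w) (v w)) := by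
      intro v hv
      refine Continuous.integrable_of_hasCompactSupport ?_ hψs.mul_right
      refine hψ.mul ?_
      exact (hg'.comp (by fun_prop)).clm_apply hv
    calc ∫ w, ψ w * fderiv ℝ g (z + (r : ℂ) • w) ((1 : ℂ) • w)
        = (∫ w, ψ w * fderiv ℝ g (z + (r : ℂ) • w) ((1 : ℂ) • w)) + Complex.I *
          ∫ w, ψ w * fderiv ℝ g (z + (r : ℂ) • w) (Complex.I • w) := by rw [h6]; simp
      _ = ∫ w, (ψ w * fderiv ℝ g (z + (r : ℂ) • w) ((1 : ℂ) • w) + Complex.I *
          (ψ w * fderiv ℝ g (z + (r : ℂ) • w) (Complex.I • w))) := by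
          rw [← integral_const_mul, ← integral_add (e1 _ (by fun_prop))
            ((e1 _ (by fun_prop)).const_mul _)]
      _ = _ := by
          refine integral_congr_ae (Filter.Eventually.of_forall fun w => ?_)
          simp only [one_smul]
          have := pdb_sum (fderiv ℝ g (z + (r : ℂ) • w)) w
          simp only [pdb]
          rw [← this]
          ring
  rw [h8] at h1
  exact h1

end rot

/-- rotation invariant mollifier -/
theorem exists_psi (n : ℕ) {δ : ℝ} (hδ : 0 < δ) : ∃ ψ : CN n → ℂ, ContDiff ℝ ∞ ψ ∧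
    (∀ w, δ < ‖w‖ → ψ w = 0) ∧ (∀ (u : ℂ), ‖u‖ = 1 → ∀ w, ψ (u • w) = ψ w) ∧
    ∫ w, ψ w = 1 := by
  let f : ContDiffBump (0 : ℝ) := ⟨δ ^ 2 / 2, δ ^ 2, by positivity, by
    have : 0 < δ ^ 2 := by positivity
    linarith⟩
  let q : CN n → ℝ := fun w => ∑ j, ‖w j‖ ^ 2
  have hq : ContDiff ℝ ∞ q := by
    refine ContDiff.sum fun j _ => ?_
    exact (contDiff_apply ℝ ℂ j).norm_sq ℝ
  let ψ₁ : CN n → ℝ := fun w => f (q w)
  have h1 : ContDiff ℝ ∞ ψ₁ := f.contDiff.comp hq
  have h2 : ∀ w, δ < ‖w‖ → ψ₁ w = 0 := by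
    intro w hw
    refine f.zero_of_le_dist ?_
    have h3 : ∃ j, δ < ‖w j‖ := by
      by_contra hcon
      push Not at hcon
      exact absurd ((pi_norm_le_iff_of_nonneg hδ.le).2 hcon) (not_le.2 hw)
    obtain ⟨j, hj⟩ := h3
    have h4 : ‖w j‖ ^ 2 ≤ q w :=
      Finset.single_le_sum (f := fun j => ‖w j‖ ^ 2) (fun i _ => by positivity)
        (Finset.mem_univ j)
    rw [dist_zero_right, Real.norm_eq_abs]
    have h5 : δ ^ 2 ≤ ‖w j‖ ^ 2 := by gcongr
    exact (h5.trans h4).trans (le_abs_self _)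
  have h3 : ψ₁ 0 ≠ 0 := by
    have : ψ₁ 0 = 1 := by
      refine f.one_of_mem_closedBall ?_
      have : q 0 = 0 := by simp [q]
      rw [this]
      exact Metric.mem_closedBall_self f.rIn_pos.le
    rw [this]
    exact one_ne_zero
  have h4 : HasCompactSupport ψ₁ := by
    refine HasCompactSupport.intro (isCompact_closedBall (0 : CN n) δ) fun w hw => ?_
    exact h2 w (by simpa using hw)
  have h5 : 0 < ∫ w, ψ₁ w :=
    h1.continuous.integral_pos_of_hasCompactSupport_nonneg_nonzero h4 (fun w => f.nonneg) h3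
  refine ⟨fun w => ((ψ₁ w / ∫ w, ψ₁ w : ℝ) : ℂ), ?_, fun w hw => ?_, fun u hu w => ?_, ?_⟩
  · exact Complex.ofRealCLM.contDiff.comp (h1.div_const _)
  · simp [h2 w hw]
  · have : ψ₁ (u • w) = ψ₁ w := by simp [ψ₁, q, hu]
    simp only [this]
  · show ∫ w, ((ψ₁ w / ∫ w, ψ₁ w : ℝ) : ℂ) = 1
    rw [integral_complex_ofReal, integral_div, div_self h5.ne', Complex.ofReal_one]

theorem main : S_TJ := by
  intro n δ _ hδ
  obtain ⟨ψ, hψ, hψ0, hrot, hψ1⟩ := exists_psi n hδ
  have hψs : HasCompactSupport ψ := by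
    refine HasCompactSupport.intro (isCompact_closedBall (0 : CN n) δ) fun w hw => ?_
    exact hψ0 w (by simpa using hw)
  refine ⟨ψ, hψ, hψ0, fun g hg hs => ?_⟩
  let μ : Measure (ℝ × CN n) := (volume.restrict (Ioc (0 : ℝ) 1)).prod volume
  let c : Fin n → ℝ × CN n → ℂ := fun j s => -2 * (ψ s.2 * starRingEnd ℂ (s.2 j))
  let φ : ℝ × CN n → CN n := fun s => (s.1 : ℂ) • s.2
  have hφ : Measurable φ := by
    refine Continuous.measurable ?_
    fun_prop
  have hc : ∀ j, Integrable (c j) μ := by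
    intro j
    have h1 : Integrable (fun w : CN n => -2 * (ψ w * starRingEnd ℂ (w j))) := by
      refine Integrable.const_mul ?_ _
      refine Continuous.integrable_of_hasCompactSupport ?_ hψs.mul_right
      exact hψ.continuous.mul (Complex.continuous_conj.comp (continuous_apply j))
    exact h1.comp_snd _
  refine ⟨fun j z => ∫ s, c j s • g (z + φ s) ∂μ, fun j => gen_contDiff (hc j) hφ hg hs,
    fun j z hz => ?_, fun z => ?_⟩
  · by_contra hcon
    push Not at hcon
    refine hz (integral_eq_zero_of_ae ?_)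
    have hae : ∀ᵐ s ∂μ, s.1 ∈ Ioc (0 : ℝ) 1 :=
      Measure.quasiMeasurePreserving_fst.ae (ae_restrict_mem measurableSet_Ioc)
    filter_upwards [hae] with s hs1
    by_cases hw : δ < ‖s.2‖
    · simp [c, hψ0 _ hw]
    · have h1 : z + φ s ∉ tsupport g := by
        intro hmem
        have h2 := hcon _ hmem
        rw [dist_self_add_right] at h2
        have h3 : ‖φ s‖ ≤ δ := by
          simp only [φ, norm_smul, Complex.norm_real, Real.norm_eq_abs]
          have : |s.1| ≤ 1 := by rw [abs_of_pos hs1.1]; exact hs1.2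
          calc |s.1| * ‖s.2‖ ≤ 1 * δ := by
                gcongr
                exact not_lt.1 hw
            _ = δ := one_mul δ
        linarith
      have h2 : g (z + φ s) = 0 := image_eq_zero_of_notMem_tsupport h1
      simp [h2]
  · have hpc : ∀ j, Continuous (pdb j g) := by
      intro j
      have hg' : Continuous (fderiv ℝ g) := hg.continuous_fderiv (by simp)
      unfold pdb comp01
      exact (((hg'.clm_apply continuous_const)).add
        ((hg'.clm_apply continuous_const).const_smul Complex.I)).const_smul (1 / 2 : ℂ)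
    have hps : ∀ j, HasCompactSupport (pdb j g) := by
      intro j
      refine HasCompactSupport.intro hs.isCompact fun w hw => ?_
      have : fderiv ℝ g w = 0 := by
        have h1 := tsupport_fderiv_subset ℝ (f := g)
        exact image_eq_zero_of_notMem_tsupport fun h => hw (h1 h)
      simp [pdb, comp01, this]
    have hi : ∀ j, Integrable (fun s => c j s • pdb j g (z + φ s)) μ := fun j =>
      int_of_bdd (hc j) hφ (hpc j) (hps j) z
    have e1 : ∀ j, pdb j (fun z => ∫ s, c j s • g (z + φ s) ∂μ) z =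
        ∫ s, c j s • pdb j g (z + φ s) ∂μ := fun j => gen_pdb (hc j) hφ hg hs j z
    simp only [e1]
    rw [← integral_finsetSum _ fun j _ => hi j]
    have hI : Integrable (fun s : ℝ × CN n => ∑ j, c j s • pdb j g (z + φ s)) μ :=
      integrable_finsetSum _ fun j _ => hi j
    have e2 : (fun s : ℝ × CN n => ∑ j, c j s • pdb j g (z + φ s)) = fun s => -(ψ s.2 *
        (2 * ∑ j, starRingEnd ℂ (s.2 j) * pdb j g (z + (s.1 : ℂ) • s.2))) := by
      funext s
      simp only [c, φ, smul_eq_mul, Finset.mul_sum, ← Finset.sum_neg_distrib]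
      exact Finset.sum_congr rfl fun j _ => by ring
    rw [e2] at hI ⊢
    rw [integral_prod _ hI]
    have hI1 := hI.integral_prod_left
    simp only [integral_neg] at hI1 ⊢
    have hI2 : Integrable (fun r : ℝ => ∫ w, ψ w *
        (2 * ∑ j, starRingEnd ℂ (w j) * pdb j g (z + (r : ℂ) • w)))
        (volume.restrict (Ioc (0 : ℝ) 1)) := by
      have := hI1.neg
      simpa using this
    rw [← intervalIntegral.integral_of_le zero_le_one]
    rw [intervalIntegral.integral_eq_sub_of_hasDerivAt_of_le zero_le_one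
      (f := fun r : ℝ => ∫ w, ψ w * g (z + (r : ℂ) • w)) ?_
      (fun r hr => radial hψ.continuous hψs hrot hg hs z hr.1.ne') ?_]
    · have e3 : ∫ w, ψ w * g (z + ((0 : ℝ) : ℂ) • w) = g z := by
        simp [integral_mul_const, hψ1]
      have e4 : ∫ w, ψ w * g (z + ((1 : ℝ) : ℂ) • w) = ∫ w, ψ w * g (z + w) := by simp
      rw [e3, e4]
      ring
    · refine Continuous.continuousOn (continuous_iff_continuousAt.2 fun r => ?_)
      exact (curve hψ.continuous hψs hg hs z (A := fun t : ℝ => (t : ℂ)) (A' := fun _ => 1)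
        (K := 1) (fun t => Complex.ofRealCLM.hasDerivAt) (fun t => by simp) r).continuousAt
    · rw [intervalIntegrable_iff_integrableOn_Ioc_of_le zero_le_one]
      exact hI2

end Pool.Agent.W469.FS.Tj
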