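import Pool.Agent.W491.FS.Stm

open scoped Manifold ContDiff Topology
open MeasureTheory Set

noncomputable section

namespace Pool.Agent.W469.FS.Core

open Pool.Agent.W491.FS

/-- polynomials in the coordinates and their conjugates -/
inductive PE (N : ℕ) : Type
  | v : Fin N → PE N
  | w : Fin N → PE N
  | c : ℂ → PE N
  | add : PE N → PE N → PE N
  | mul : PE N → PE N → PE N

namespace PE

variable {N : ℕ}

/-- value -/
def ev : PE N → (Fin N → ℂ) → ℂ
  | v i, y => y i
  | w i, y => starRingEnd ℂ (y i)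
  | c r, _ => r
  | add p q, y => ev p y + ev q y
  | mul p q, y => ev p y * ev q y

/-- the projection as a real-linear functional -/
def prj' (i : Fin N) : Covi (Fin N) := ContinuousLinearMap.proj i

/-- the conjugate projection -/
def prjc (i : Fin N) : Covi (Fin N) :=
  Complex.conjCLE.toContinuousLinearMap.comp (prj' i)

@[simp] theorem prj'_apply (i : Fin N) (u : Fin N → ℂ) : prj' i u = u i := rfl
@[simp] theorem prjc_apply (i : Fin N) (u : Fin N → ℂ) : prjc i u = starRingEnd ℂ (u i) := rfl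

/-- derivative -/
def dv : PE N → (Fin N → ℂ) → Covi (Fin N)
  | v i, _ => prj' i
  | w i, _ => prjc i
  | c _, _ => 0
  | add p q, y => dv p y + dv q y
  | mul p q, y => ev p y • dv q y + ev q y • dv p y

theorem hasFDerivAt (p : PE N) (y : Fin N → ℂ) : HasFDerivAt (ev p) (dv p y) y := by
  induction p with
  | v i => exact (prj' i).hasFDerivAt
  | w i => exact (prjc i).hasFDerivAt
  | c r => exact hasFDerivAt_const _ _
  | add p q hp hq => exact hp.add hq
  | mul p q hp hq => exact hp.mul hq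

theorem contDiff (p : PE N) : ContDiff ℝ ∞ (ev p) := by
  induction p with
  | v i => exact (prj' i).contDiff
  | w i => exact (prjc i).contDiff
  | c r => exact contDiff_const
  | add p q hp hq => exact hp.add hq
  | mul p q hp hq => exact hp.mul hq

/-- no conjugates -/
def isHol : PE N → Bool
  | v _ => true
  | w _ => false
  | c _ => true
  | add p q => isHol p && isHol q
  | mul p q => isHol p && isHol q

theorem contDiff_hol (p : PE N) (h : isHol p = true) : ContDiff ℂ ω (ev p) := by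
  induction p with
  | v i => exact (ContinuousLinearMap.proj (R := ℂ) (φ := fun _ : Fin N => ℂ) i).contDiff
  | w i => simp [isHol] at h
  | c r => exact contDiff_const
  | add p q hp hq =>
    simp only [isHol, Bool.and_eq_true] at h
    exact (hp h.1).add (hq h.2)
  | mul p q hp hq =>
    simp only [isHol, Bool.and_eq_true] at h
    exact (hp h.1).mul (hq h.2)

end PE

open PE

/-- Gaussian integers -/
def IsG (z : ℂ) : Prop := ∃ x y : ℤ, z = (x : ℂ) + (y : ℂ) * Complex.I

theorem IsG.add {z w : ℂ} (hz : IsG z) (hw : IsG w) : IsG (z + w) := by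
  obtain ⟨a, b, rfl⟩ := hz
  obtain ⟨c, d, rfl⟩ := hw
  exact ⟨a + c, b + d, by push_cast; ring⟩

theorem IsG.mul {z w : ℂ} (hz : IsG z) (hw : IsG w) : IsG (z * w) := by
  obtain ⟨a, b, rfl⟩ := hz
  obtain ⟨c, d, rfl⟩ := hw
  refine ⟨a * c - b * d, a * d + b * c, ?_⟩
  push_cast
  linear_combination (b : ℂ) * d * Complex.I_mul_I

theorem IsG.neg {z : ℂ} (hz : IsG z) : IsG (-z) := by
  obtain ⟨a, b, rfl⟩ := hz
  exact ⟨-a, -b, by push_cast; ring⟩

theorem IsG.sub {z w : ℂ} (hz : IsG z) (hw : IsG w) : IsG (z - w) := by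
  rw [sub_eq_add_neg]
  exact hz.add hw.neg

theorem IsG.conj {z : ℂ} (hz : IsG z) : IsG (starRingEnd ℂ z) := by
  obtain ⟨a, b, rfl⟩ := hz
  exact ⟨a, -b, by simp⟩

theorem IsG.pow {z : ℂ} (hz : IsG z) (k : ℕ) : IsG (z ^ k) := by
  induction k with
  | zero => exact ⟨1, 0, by simp⟩
  | succ k ih => rw [pow_succ]; exact ih.mul hz

theorem IsG.int (m : ℤ) : IsG (m : ℂ) := ⟨m, 0, by simp⟩

theorem IsG.nat (m : ℕ) : IsG (m : ℂ) := ⟨m, 0, by simp⟩

theorem IsG.ofNat (m : ℕ) [m.AtLeastTwo] : IsG (OfNat.ofNat m : ℂ) := by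
  have := IsG.nat m
  exact this

theorem IsG.zero : IsG 0 := ⟨0, 0, by simp⟩

theorem isLat_iff {ι : Type} (sc : ι → ℕ) (a : ι → ℂ) :
    IsLat sc a ↔ ∀ i, ∃ g, IsG g ∧ a i = (sc i : ℂ) * g :=
  ⟨fun h i => by
    obtain ⟨x, y, hxy⟩ := h i
    exact ⟨_, ⟨x, y, rfl⟩, hxy⟩, fun h i => by
    obtain ⟨g, ⟨x, y, rfl⟩, h2⟩ := h i
    exact ⟨x, y, h2⟩⟩

section fam

variable {N : ℕ}

/-- covector field with polynomial coefficients -/
def pcof (P : Fin N → Fin N → PE N) (i : Fin N) (y : Fin N → ℂ) : Covi (Fin N) :=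
  ∑ j, ev (P i j) y • prj' j

theorem pcof_apply (P : Fin N → Fin N → PE N) (i : Fin N) (y u : Fin N → ℂ) :
    pcof P i y u = ∑ j, ev (P i j) y * u j := by
  simp [pcof]

theorem pcof_smooth (P : Fin N → Fin N → PE N) (i : Fin N) : ContDiff ℝ ∞ (pcof P i) :=
  ContDiff.sum fun j _ => (PE.contDiff (P i j)).smul contDiff_const

theorem pcof_fderiv (P : Fin N → Fin N → PE N) (i : Fin N) (y u w : Fin N → ℂ) :
    fderiv ℝ (pcof P i) y u w = ∑ j, dv (P i j) y u * w j := by
  have h1 : HasFDerivAt (pcof P i) (∑ j, (dv (P i j) y).smulRight (prj' j : Covi (Fin N))) y := by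
    have h2 := HasFDerivAt.fun_sum (u := Finset.univ) (fun j (_ : j ∈ Finset.univ) =>
      ((PE.hasFDerivAt (P i j) y).smul_const (prj' j : Covi (Fin N))))
    exact h2
  rw [h1.fderiv]
  simp

/-- the correction term of the group law -/
def ph (Q : (Fin N → ℂ) → Fin N → PE N) (a z : Fin N → ℂ) : Fin N → ℂ := fun i => ev (Q a i) z

theorem ph_fderiv (Q : (Fin N → ℂ) → Fin N → PE N) (a y u : Fin N → ℂ) :
    fderiv ℝ (fun z => a + z + ph Q a z) y u = fun i => u i + dv (Q a i) y u := by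
  have h1 : HasFDerivAt (fun z => a + z + ph Q a z) (ContinuousLinearMap.id ℝ (Fin N → ℂ) +
      ContinuousLinearMap.pi fun i => dv (Q a i) y) y := by
    refine ((hasFDerivAt_id y).const_add a).add ?_
    exact hasFDerivAt_pi.2 fun i => PE.hasFDerivAt (Q a i) y
  rw [h1.fderiv]
  rfl

/-- the family of forms from polynomial data -/
def mk (s : Str (Fin N)) (P : Fin N → Fin N → PE N) (Q : (Fin N → ℂ) → Fin N → PE N)
    (rk sc : Fin N → ℕ) (sc_pos : ∀ i, 0 < sc i)
    (dep : ∀ i a a' z z', (∀ j, rk j < rk i → a j = a' j) → (∀ j, rk j < rk i → z j = z' j) →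
      ev (Q a i) z = ev (Q a' i) z')
    (zero_left : ∀ z i, ev (Q 0 i) z = 0)
    (assoc : ∀ a b z i, a i + (b i + z i + ev (Q b i) z) + ev (Q a i) (b + z + ph Q b z) =
      (a i + b i + ev (Q a i) b) + z i + ev (Q (a + b + ph Q a b) i) z)
    (int : ∀ a b, IsLat sc a → IsLat sc b → ∀ i, ∃ g, IsG g ∧ ev (Q a i) b = (sc i : ℂ) * g)
    (cont : ∀ i, Continuous fun q : (Fin N → ℂ) × (Fin N → ℂ) => ev (Q q.1 i) q.2)
    (hol : ∀ a i, isHol (Q a i) = true)
    (indep : ∀ (y v : Fin N → ℂ), (∀ i, ∑ j, ev (P i j) y * v j = 0) → v = 0)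
    (inv : ∀ i a y u, ∑ j, ev (P i j) (a + y + ph Q a y) * (u j + dv (Q a j) y u) =
      ∑ j, ev (P i j) y * u j)
    (str : ∀ i y u v, ∑ j, dv (P i j) y u * v j - ∑ j, dv (P i j) y v * u j =
      ((s i).map fun t => (t.1 : ℂ) * (cof' (pcof P) t.2.1 y u * cof' (pcof P) t.2.2 y v -
      cof' (pcof P) t.2.1 y v * cof' (pcof P) t.2.2 y u)).sum) : Fam (Fin N) s where
  rk := rk
  sc := sc
  sc_pos := sc_pos
  h := ph Q
  dep := dep
  zero_left z := funext fun i => zero_left z i
  assoc a b z := funext fun i => assoc a b z i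
  int a b ha hb := (isLat_iff sc _).2 (int a b ha hb)
  cont := continuous_pi cont
  hol a := contDiff_pi.2 fun i => PE.contDiff_hol (Q a i) (hol a i)
  cof := pcof P
  smooth := pcof_smooth P
  lin i y c v := by
    rw [pcof_apply, pcof_apply, Finset.mul_sum]
    refine Finset.sum_congr rfl fun j _ => ?_
    simp only [Pi.smul_apply, smul_eq_mul]
    ring
  indep y v h := indep y v fun i => by rw [← pcof_apply]; exact h i
  inv i a _ y := by
    ext1 u
    rw [ContinuousLinearMap.comp_apply, ph_fderiv, pcof_apply, pcof_apply]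
    exact inv i a y u
  str i y u v := by
    rw [pcof_fderiv, pcof_fderiv]
    exact str i y u v

end fam

end Pool.Agent.W469.FS.Core
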