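import Pool.Agent.W491.FS.Stm

open scoped Manifold ContDiff Topology
open MeasureTheory Set

noncomputable section

namespace Pool.Agent.W469.FS.P2

open Pool.Agent.W491.FS

universe u

theorem pdb_conj {n : ℕ} (j : Fin n) (g : CN n → ℂ) (z : CN n) :
    pdb j (fun z => starRingEnd ℂ (g z)) z = starRingEnd ℂ (pd j g z) := by
  have h1 : fderiv ℝ (fun z => starRingEnd ℂ (g z)) z =
      (Complex.conjCLE : ℂ →L[ℝ] ℂ).comp (fderiv ℝ g z) := by
    have := Complex.conjCLE.comp_fderiv (f := g) (x := z)
    exact this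
  unfold pdb pd comp01 comp10
  rw [h1]
  simp
  left
  exact (map_ofNat (starRingEnd ℂ) 2).symm

theorem main (h1 : S_TYPE) (h3 : S_LOCB) (h4 : S_LOCC) (h5 : S_IBP) (h6 : S_EXT.{u})
    (h7 : S_P0.{u}) : S_P2.{u} := by
  classical
  intro k X _ _ _ _ _ I hI h hh hort
  refine Forms.ext fun c y0 hy0 => ?_
  rw [extD_loc h c hy0]
  have hgoal : extDeriv (h.loc c) y0 = 0 := by
    rw [h4 (k + 1) (h.loc c) y0 (h.differentiableAt c hy0)
      (Filter.Eventually.of_forall fun z => hh c z)]
    intro j
    set g : CN (k + 1) → ℂ := fun z => h.loc c z (ebt (k + 1)) with hg_def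
    have hU : IsOpen c.1.target := c.1.open_target
    have hg : ContDiffOn ℝ ∞ g c.1.target := by
      have e1 : ContDiffOn ℝ ∞ (h.loc c) c.1.target := h.isForm.smooth c
      have e2 : ContDiff ℝ ∞ (fun a : Alt (k + 1) (k + 1) => a (ebt (k + 1))) := by
        have : IsBoundedLinearMap ℝ (fun a : Alt (k + 1) (k + 1) => a (ebt (k + 1))) := by
          refine ⟨⟨fun a b => rfl, fun r a => rfl⟩, ?_⟩
          refine ⟨∏ i, ‖ebt (k + 1) i‖ + 1, by positivity, fun a => ?_⟩
          calc ‖a (ebt (k + 1))‖ ≤ ‖a‖ * ∏ i, ‖ebt (k + 1) i‖ := a.le_opNorm _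
            _ ≤ (∏ i, ‖ebt (k + 1) i‖ + 1) * ‖a‖ := by
                nlinarith [norm_nonneg a]
        exact this.contDiff
      exact e2.comp_contDiffOn e1
    have hpdg : ContDiffOn ℝ ∞ (pd j g) c.1.target := by
      have e1 : ContDiffOn ℝ ∞ (fderiv ℝ g) c.1.target := hg.fderiv_of_isOpen hU (by simp)
      unfold pd comp10
      exact (((e1.clm_apply contDiffOn_const)).sub
        ((e1.clm_apply contDiffOn_const).const_smul Complex.I)).const_smul (1 / 2 : ℂ)
    obtain ⟨χ, hχs, hχc, hχ, hχr, hχ1⟩ := exists_contDiff_tsupport_subset (n := (⊤ : ℕ∞))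
      (hU.mem_nhds hy0)
    have hχ0 : ∀ z, 0 ≤ χ z := fun z => (hχr ⟨z, rfl⟩).1
    have hχn : ∀ z ∉ tsupport χ, χ z = 0 := fun z hz => image_eq_zero_of_notMem_tsupport hz
    let b' : CN (k + 1) → ℂ := fun z => (χ z : ℂ) * pd j g z
    have hχC : ContDiff ℝ ∞ (fun z => (χ z : ℂ)) := Complex.ofRealCLM.contDiff.comp hχ
    have hb' : ContDiff ℝ ∞ b' := by
      rw [contDiff_iff_contDiffAt]
      intro z
      by_cases hz : z ∈ c.1.target
      · exact hχC.contDiffAt.mul (hpdg.contDiffAt (hU.mem_nhds hz))
      · have h8 : z ∉ tsupport χ := fun h => hz (hχs h)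
        refine (contDiffAt_const (c := (0 : ℂ))).congr_of_eventuallyEq ?_
        filter_upwards [(isClosed_tsupport χ).isOpen_compl.mem_nhds h8] with x hx
        simp only [b', hχn x hx, Complex.ofReal_zero, zero_mul]
    let b : Fin (k + 1) → CN (k + 1) → ℂ := Pi.single j b'
    have hbj : b j = b' := by simp [b]
    have hbi : ∀ i, i ≠ j → b i = 0 := fun i hi => by simp [b, hi]
    have hb : ∀ i, ContDiff ℝ ∞ (b i) := by
      intro i
      by_cases hi : i = j
      · subst hi
        rw [hbj]
        exact hb'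
      · rw [hbi i hi]
        exact contDiff_const
    obtain ⟨F, hF, hF0, hFd⟩ := h3 k b hb
    have hFK : ∀ z ∉ tsupport χ, F z = 0 := by
      intro z hz
      refine hF0 z fun i => ?_
      by_cases hi : i = j
      · subst hi
        rw [hbj]
        simp only [b', hχn z hz, Complex.ofReal_zero, zero_mul]
      · rw [hbi i hi]
        rfl
    obtain ⟨β, hβ1, hβ2⟩ := h6 (k + 1) X k c F (tsupport χ) hχc.isCompact hχs hF.contDiffOn
      (fun y _ hy => hFK y hy)
    have hp0 : prj (k + 1) 0 (0 : Alt (k + 1) (k + 1)) = 0 := by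
      have := (h1 (k + 1) (k + 1)).2.1 0 0 0
      have zsm : ∀ D : Alt (k + 1) (k + 1), (0 : ℂ) • D = 0 := by
        intro D
        ext v
        simp
      rwa [zsm, zsm] at this
    have hdens := h7 (k + 1) X h (extD (k + 1) X k β) hh
    have hcl : IsClosed (c.1.symm '' tsupport χ) :=
      (hχc.isCompact.image_of_continuousOn (c.1.continuousOn_symm.mono hχs)).isClosed
    have hloc := hI.loc c (tsupport χ) _ hχc.isCompact hχs hdens (by
      intro c' y hy hyK
      have h7 : β.loc c' =ᶠ[𝓝 y] fun _ => 0 := by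
        have hcont : ContinuousAt c'.1.symm y := c'.1.continuousAt_symm hy
        filter_upwards [c'.1.open_target.mem_nhds hy,
          hcont.eventually_mem (hcl.isOpen_compl.mem_nhds hyK)] with x hx hx2
        exact hβ2 c' x hx hx2
      have h8 : fderiv ℝ (fun _ : CN (k + 1) => (0 : Alt (k + 1) k)) y = 0 := by simp
      have h9 : (extD (k + 1) X k β).loc c' y = 0 := by
        rw [extD_loc β c' hy, h7.extDeriv_eq, extDeriv, h8]
        exact map_zero (ContinuousAlternatingMap.alternatizeUncurryFinCLM (n := k) ℝ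
          (CN (k + 1)) ℂ)
      simp only [dH, h9, hp0]
      simp)
    rw [hort β] at hloc
    have e1 : ∫ y in c.1.target, dH h (extD (k + 1) X k β) c y =
        ∫ y in c.1.target, pdb j b' y * starRingEnd ℂ (g y) := by
      refine setIntegral_congr_fun hU.measurableSet fun y hy => ?_
      simp only [dH]
      rw [extD_loc β c hy]
      have e3 : extDeriv (β.loc c) y = extDeriv F y := by
        apply Filter.EventuallyEq.extDeriv_eq
        filter_upwards [hU.mem_nhds hy] with x hx
        exact hβ1 x hx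
      rw [e3, hFd y, Finset.sum_eq_single j]
      · rw [hbj]
      · intro i _ hi
        rw [hbi i hi]
        simp [pdb, comp01]
      · intro hh
        exact absurd (Finset.mem_univ j) hh
    have e2 := h5 (k + 1) c.1.target (tsupport χ) b' (fun z => starRingEnd ℂ (g z)) j hU
      hχc.isCompact hχs hb'.contDiffOn (fun z _ hz => by
        simp only [b', hχn z hz, Complex.ofReal_zero, zero_mul])
      (Complex.conjCLE.contDiff.comp_contDiffOn hg)
    rw [e1, e2] at hloc
    have e3 : ∫ z in c.1.target, b' z * pdb j (fun z => starRingEnd ℂ (g z)) z = 0 := by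
      have := hloc
      rw [eq_comm, neg_eq_zero] at this
      exact this
    have e4 : ∀ z, b' z * pdb j (fun z => starRingEnd ℂ (g z)) z =
        ((χ z * ‖pd j g z‖ ^ 2 : ℝ) : ℂ) := by
      intro z
      rw [pdb_conj]
      simp only [b']
      rw [mul_assoc, Complex.mul_conj, Complex.normSq_eq_norm_sq]
      push_cast
      ring
    simp only [e4] at e3
    rw [integral_complex_ofReal, Complex.ofReal_eq_zero] at e3
    have hcont : ContinuousOn (fun z => χ z * ‖pd j g z‖ ^ 2) c.1.target :=
      hχ.continuous.continuousOn.mul (hpdg.continuousOn.norm.pow 2)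
    have hint : IntegrableOn (fun z => χ z * ‖pd j g z‖ ^ 2) c.1.target := by
      have h8 : IntegrableOn (fun z => χ z * ‖pd j g z‖ ^ 2) (tsupport χ) :=
        (hcont.mono hχs).integrableOn_compact hχc.isCompact
      exact h8.of_forall_sdiff_eq_zero hU.measurableSet fun x hx => by
        simp [hχn x hx.2]
    rw [setIntegral_eq_zero_iff_of_nonneg_ae
      (Filter.Eventually.of_forall fun z => mul_nonneg (hχ0 z) (by positivity)) hint] at e3
    have h8 := Measure.eqOn_open_of_ae_eq e3 hU hcont continuousOn_const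
    have h9 := h8 hy0
    simp only [hχ1, one_mul, Pi.zero_apply] at h9
    have h10 : ‖pd j g y0‖ = 0 := by
      exact pow_eq_zero_iff (two_ne_zero) |>.1 h9
    exact norm_eq_zero.1 h10
  exact hgoal

end Pool.Agent.W469.FS.P2
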